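import Pool.Agent.GRD.Gale

/-!
# From cells to the faces of the polytope
-/

set_option autoImplicit false

open scoped BigOperators Classical RealInnerProductSpace

namespace Pool.Agent.GRD

noncomputable section

open Module

variable {d n : ℕ}

/-- Euclidean space -/
abbrev E (d : ℕ) := EuclideanSpace ℝ (Fin d)

/-- the linear map `z ↦ (⟪a i, z⟫)_i` -/
def TT (a : Fin n → E d) : (E d) →ₗ[ℝ] (Fin n → ℝ) :=
  LinearMap.pi fun i => (innerSL ℝ (a i)).toLinearMap

theorem TT_apply (a : Fin n → E d) (z : E d) (i : Fin n) : TT a z i = ⟪a i, z⟫ := rfl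

/-- realizable sign vectors -/
def Rz (a : Fin n → E d) (s : Fin n → ZMod 3) : Prop := ∃ z : E d, Cell s (TT a z)

theorem encard_of_inj {P : Set (E d)} (a : Fin n → E d)
    (F : (Fin n → ZMod 3) → Set (E d))
    (hF : ∀ s, Rz a s → (F s).Nonempty ∧ IsExposed ℝ P (F s))
    (hinj : ∀ s s', Rz a s → Rz a s' → F s = F s' → s = s') :
    (NL (LinearMap.range (TT a)) : ℕ∞) ≤
      {G : Set (E d) | G.Nonempty ∧ IsExposed ℝ P G}.encard := by
  have h1 : {s : Fin n → ZMod 3 | Rz a s}.encard ≤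
      {G : Set (E d) | G.Nonempty ∧ IsExposed ℝ P G}.encard := by
    apply Set.encard_le_encard_of_injOn (f := F)
    · intro s hs; exact hF s hs
    · intro s hs s' hs' h; exact hinj s s' hs hs' h
  refine le_trans (le_of_eq ?_) h1
  unfold NL
  rw [← Set.encard_coe_eq_coe_finsetCard]
  congr 1
  ext s
  rw [Finset.coe_filter]
  simp only [Finset.mem_univ, true_and, Set.mem_ofPred_eq]
  constructor
  · rintro ⟨y, ⟨z, rfl⟩, hc⟩
    exact ⟨z, hc⟩
  · rintro ⟨z, hc⟩
    exact ⟨_, ⟨z, rfl⟩, hc⟩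

/-- facet version -/
theorem facet_case (a : Fin n → E d) {P : Set (E d)}
    (hP : P = {x | ∀ i, |⟪a i, x⟫| ≤ 1}) :
    (NL (LinearMap.range (TT a)) : ℕ∞) ≤
      {G : Set (E d) | G.Nonempty ∧ IsExposed ℝ P G}.encard := by
  refine encard_of_inj (P := P) a
    (fun s => {x | x ∈ P ∧ ∀ i, s i ≠ 0 → ⟪a i, x⟫ = sg (s i)}) ?_ ?_
  · intro s hs
    obtain ⟨z, hz⟩ := hs
    have hzP : z ∈ P := by
      rw [hP]; intro i
      exact hz.abs_le i
    have hzF : z ∈ {x | x ∈ P ∧ ∀ i, s i ≠ 0 → ⟪a i, x⟫ = sg (s i)} :=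
      ⟨hzP, fun i hi => (hz i).2 hi⟩
    refine ⟨⟨z, hzF⟩, fun _ => ?_⟩
    set l : StrongDual ℝ (E d) := ∑ i, (sg (s i)) • innerSL ℝ (a i) with hl
    have hlx : ∀ x, l x = ∑ i, sg (s i) * ⟪a i, x⟫ := by
      intro x
      simp [hl]
    have hbound : ∀ x ∈ P, ∀ i, sg (s i) * ⟪a i, x⟫ ≤ sg (s i) * sg (s i) := by
      intro x hx i
      by_cases h : s i = 0
      · simp [h, sg]
      · rw [sg_mul_self h]
        rw [hP] at hx
        have h1 := hx i
        calc sg (s i) * ⟪a i, x⟫ ≤ |sg (s i) * ⟪a i, x⟫| := le_abs_self _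
          _ = |⟪a i, x⟫| := by rw [abs_mul, abs_sg h, one_mul]
          _ ≤ 1 := h1
    have hval : ∀ x, (x ∈ P ∧ ∀ i, s i ≠ 0 → ⟪a i, x⟫ = sg (s i)) →
        l x = ∑ i, sg (s i) * sg (s i) := by
      intro x hx
      rw [hlx]
      refine Finset.sum_congr rfl fun i _ => ?_
      by_cases h : s i = 0
      · simp [h, sg]
      · rw [hx.2 i h]
    refine ⟨l, ?_⟩
    ext x
    constructor
    · intro hx
      refine ⟨hx.1, fun u hu => ?_⟩
      rw [hval x hx, hlx]
      exact Finset.sum_le_sum fun i _ => hbound u hu i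
    · rintro ⟨hxP, hmax⟩
      refine ⟨hxP, fun i hi => ?_⟩
      have h1 := hmax z hzP
      rw [hval z hzF, hlx x] at h1
      have h2 : ∀ j ∈ Finset.univ, sg (s j) * ⟪a j, x⟫ = sg (s j) * sg (s j) := by
        by_contra hcon
        simp only [Finset.mem_univ, true_implies, not_forall] at hcon
        obtain ⟨j, hj⟩ := hcon
        have : ∑ i, sg (s i) * ⟪a i, x⟫ < ∑ i, sg (s i) * sg (s i) :=
          Finset.sum_lt_sum (fun i _ => hbound x hxP i)
            ⟨j, Finset.mem_univ _, lt_of_le_of_ne (hbound x hxP j) hj⟩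
        linarith
      have h3 := h2 i (Finset.mem_univ _)
      have h4 : sg (s i) ≠ 0 := by
        intro h0
        have := sg_mul_self hi
        rw [h0] at this; simp at this
      exact mul_left_cancel₀ h4 h3
  · intro s s' hs hs' hFF
    obtain ⟨z, hz⟩ := hs
    obtain ⟨z', hz'⟩ := hs'
    have hmem : ∀ (s : Fin n → ZMod 3) (z : E d), Cell s (TT a z) →
        z ∈ {x | x ∈ P ∧ ∀ i, s i ≠ 0 → ⟪a i, x⟫ = sg (s i)} := by
      intro s z h1
      refine ⟨?_, fun i hi => (h1 i).2 hi⟩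
      rw [hP]; intro i
      exact h1.abs_le i
    have hzF := hmem s z hz
    have hzF' := hmem s' z' hz'
    have hFF' : {x | x ∈ P ∧ ∀ i, s i ≠ 0 → ⟪a i, x⟫ = sg (s i)} =
        {x | x ∈ P ∧ ∀ i, s' i ≠ 0 → ⟪a i, x⟫ = sg (s' i)} := hFF
    rw [hFF'] at hzF
    rw [← hFF'] at hzF'
    funext i
    by_cases h : s i = 0
    · by_cases h' : s' i = 0
      · rw [h, h']
      · exfalso
        have e1 := hzF.2 i h'
        have e2 := (hz i).1 h
        rw [TT_apply, e1, abs_sg h'] at e2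
        exact lt_irrefl _ e2
    · have e1 := hzF'.2 i h
      by_cases h' : s' i = 0
      · exfalso
        have e2 := (hz' i).1 h'
        rw [TT_apply, e1, abs_sg h] at e2
        exact lt_irrefl _ e2
      · have e2 := (hz' i).2 h'
        rw [TT_apply, e1] at e2
        exact sg_inj e2

theorem inj_of_bounded (a : Fin n → E d) {P : Set (E d)}
    (hP : P = {x | ∀ i, |⟪a i, x⟫| ≤ 1}) (hb : Bornology.IsBounded P) :
    Function.Injective (TT a) := by
  rw [← LinearMap.ker_eq_bot, LinearMap.ker_eq_bot']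
  intro z hz
  have hz' : ∀ i, ⟪a i, z⟫ = 0 := fun i => by
    rw [← TT_apply, hz]; rfl
  by_contra hne
  obtain ⟨C, hC⟩ := hb.exists_norm_le
  have hmem : ∀ t : ℝ, t • z ∈ P := by
    intro t
    rw [hP]
    intro i
    rw [inner_smul_right, hz' i]; simp
  have hzn : 0 < ‖z‖ := norm_pos_iff.2 hne
  have h1 := hC _ (hmem ((|C| + 1) / ‖z‖))
  rw [norm_smul, Real.norm_eq_abs, abs_div, abs_of_pos hzn, div_mul_cancel₀ _ hzn.ne',
    abs_of_nonneg (by positivity)] at h1
  have := le_abs_self C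
  linarith

/-- linear functionals are bounded on the hull by their values on the generators -/
theorem hull_le (v : Fin n → E d) {P : Set (E d)}
    (hP : P = convexHull ℝ (Set.range v ∪ Set.range (fun i => -v i)))
    (z : E d) (c : ℝ) (hc : ∀ i, |⟪v i, z⟫| ≤ c) : ∀ x ∈ P, ⟪z, x⟫ ≤ c := by
  intro x hx
  have hconv : Convex ℝ {x : E d | ⟪z, x⟫ ≤ c} := by
    have := (convex_halfSpace_le (f := fun x : E d => ⟪z, x⟫)
      (⟨fun x y => inner_add_right _ _ _, fun r x => by
        simp [inner_smul_right]⟩ : IsLinearMap ℝ (fun x : E d => ⟪z, x⟫)) c)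
    exact this
  have hsub : Set.range v ∪ Set.range (fun i => -v i) ⊆ {x : E d | ⟪z, x⟫ ≤ c} := by
    rintro u (⟨i, rfl⟩ | ⟨i, rfl⟩)
    · show ⟪z, v i⟫ ≤ c
      rw [real_inner_comm]; exact (le_abs_self _).trans (hc i)
    · show ⟪z, -v i⟫ ≤ c
      rw [inner_neg_right, real_inner_comm]; exact (neg_le_abs _).trans (hc i)
  rw [hP] at hx
  exact convexHull_min hsub hconv hx

theorem inj_of_interior (v : Fin n → E d) {P : Set (E d)}
    (hP : P = convexHull ℝ (Set.range v ∪ Set.range (fun i => -v i)))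
    (hint : (interior P).Nonempty) : Function.Injective (TT v) := by
  have hle := hull_le v hP
  rw [← LinearMap.ker_eq_bot, LinearMap.ker_eq_bot']
  intro z hz
  have hz' : ∀ i, ⟪v i, z⟫ = 0 := fun i => by
    rw [← TT_apply, hz]; rfl
  by_contra hne
  obtain ⟨x₀, hx₀⟩ := hint
  have hopen : IsOpen (interior P) := isOpen_interior
  have hzero : ∀ x ∈ P, ⟪z, x⟫ = 0 := by
    intro x hx
    have h1 := hle z 0 (fun i => by rw [hz' i]; simp) x hx
    have h2 := hle (-z) 0 (fun i => by rw [inner_neg_right, hz' i]; simp) x hx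
    rw [inner_neg_left] at h2
    linarith
  have hcont : Continuous (fun t : ℝ => x₀ + t • z) := by fun_prop
  have hmem : (fun t : ℝ => x₀ + t • z) ⁻¹' interior P ∈ nhds (0 : ℝ) := by
    apply hcont.continuousAt.preimage_mem_nhds
    apply hopen.mem_nhds
    simpa using hx₀
  obtain ⟨ε, hε, hball⟩ := Metric.mem_nhds_iff.1 hmem
  have h1 : x₀ + (ε / 2) • z ∈ interior P := by
    apply hball
    rw [Metric.mem_ball, dist_zero_right, Real.norm_eq_abs, abs_of_pos (by positivity)]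
    linarith
  have h2 := hzero _ (interior_subset h1)
  have h3 := hzero _ (interior_subset hx₀)
  rw [inner_add_right, h3, zero_add, inner_smul_right, real_inner_self_eq_norm_sq] at h2
  have : 0 < ‖z‖ := norm_pos_iff.2 hne
  have : 0 < ε / 2 * ‖z‖ ^ 2 := by positivity
  linarith

/-- vertex version -/
theorem vertex_case (v : Fin n → E d) {P : Set (E d)}
    (hP : P = convexHull ℝ (Set.range v ∪ Set.range (fun i => -v i)))
    (hne : P.Nonempty) :
    (NL (LinearMap.range (TT v)) : ℕ∞) ≤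
      {G : Set (E d) | G.Nonempty ∧ IsExposed ℝ P G}.encard := by
  have hle := hull_le v hP
  have hvP : ∀ i, v i ∈ P := fun i => by
    rw [hP]; exact subset_convexHull ℝ _ (Or.inl ⟨i, rfl⟩)
  have hvP' : ∀ i, -v i ∈ P := fun i => by
    rw [hP]; exact subset_convexHull ℝ _ (Or.inr ⟨i, rfl⟩)
  obtain ⟨i₀⟩ : Nonempty (Fin n) := by
    rw [hP, convexHull_nonempty_iff] at hne
    rcases hne with ⟨x, ⟨i, -⟩ | ⟨i, -⟩⟩
    · exact ⟨i⟩
    · exact ⟨i⟩
  have hch : ∀ s : Fin n → ZMod 3, ∃ z : E d, Rz v s → Cell s (TT v z) := by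
    intro s
    by_cases h : Rz v s
    · obtain ⟨z, hz⟩ := h
      exact ⟨z, fun _ => hz⟩
    · exact ⟨0, fun h' => absurd h' h⟩
  choose Z hZ using hch
  set Z' : (Fin n → ZMod 3) → E d := fun s => if s = 0 then 0 else Z s with hZ'
  have hFdef : ∀ s, Rz v s → s ≠ 0 → ∀ x ∈ P,
      ((∀ u ∈ P, ⟪Z' s, u⟫ ≤ ⟪Z' s, x⟫) ↔ ⟪Z s, x⟫ = 1) := by
    intro s hs hs0 x hx
    have hZs : Z' s = Z s := by simp [hZ', hs0]
    rw [hZs]
    have hc := hZ s hs
    have hbd := hle (Z s) 1 (fun i => hc.abs_le i)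
    obtain ⟨i, hi⟩ : ∃ i, s i ≠ 0 := by
      by_contra hcon
      simp only [not_exists, not_not] at hcon
      exact hs0 (funext hcon)
    have h2 : ⟪v i, Z s⟫ = sg (s i) := (hc i).2 hi
    constructor
    · intro hmax
      apply le_antisymm (hbd x hx)
      rcases sg_cases hi with h | h
      · have := hmax _ (hvP i)
        rw [real_inner_comm, h2, h] at this
        exact this
      · have := hmax _ (hvP' i)
        rw [inner_neg_right, real_inner_comm, h2, h] at this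
        linarith
    · intro hx1 u hu
      rw [hx1]; exact hbd u hu
  refine encard_of_inj (P := P) v
    (fun s => {x | x ∈ P ∧ ∀ u ∈ P, ⟪Z' s, u⟫ ≤ ⟪Z' s, x⟫}) ?_ ?_
  · intro s hs
    refine ⟨?_, fun _ => ⟨innerSL ℝ (Z' s), rfl⟩⟩
    by_cases hs0 : s = 0
    · refine ⟨v i₀, hvP i₀, fun u _ => ?_⟩
      simp [hZ', hs0]
    · obtain ⟨i, hi⟩ : ∃ i, s i ≠ 0 := by
        by_contra hcon
        simp only [not_exists, not_not] at hcon
        exact hs0 (funext hcon)
      have h2 : ⟪v i, Z s⟫ = sg (s i) := (hZ s hs i).2 hi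
      rcases sg_cases hi with h | h
      · refine ⟨v i, hvP i, (hFdef s hs hs0 _ (hvP i)).2 ?_⟩
        rw [real_inner_comm, h2, h]
      · refine ⟨-v i, hvP' i, (hFdef s hs hs0 _ (hvP' i)).2 ?_⟩
        rw [inner_neg_right, real_inner_comm, h2, h]; norm_num
  · intro s s' hs hs' hFF
    have hFF' : {x | x ∈ P ∧ ∀ u ∈ P, ⟪Z' s, u⟫ ≤ ⟪Z' s, x⟫} =
        {x | x ∈ P ∧ ∀ u ∈ P, ⟪Z' s', u⟫ ≤ ⟪Z' s', x⟫} := hFF
    have hm : ∀ s, Rz v s → s ≠ 0 → ∀ i,
        ((v i ∈ {x | x ∈ P ∧ ∀ u ∈ P, ⟪Z' s, u⟫ ≤ ⟪Z' s, x⟫}) ↔ sg (s i) = 1) ∧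
        ((-v i ∈ {x | x ∈ P ∧ ∀ u ∈ P, ⟪Z' s, u⟫ ≤ ⟪Z' s, x⟫}) ↔ sg (s i) = -1) := by
      intro s hs hs0 i
      have hc := hZ s hs
      have e0 : ∀ w ∈ P, (w ∈ {x | x ∈ P ∧ ∀ u ∈ P, ⟪Z' s, u⟫ ≤ ⟪Z' s, x⟫}) ↔
          ⟪Z s, w⟫ = 1 := by
        intro w hw
        rw [← hFdef s hs hs0 w hw]
        exact ⟨fun h => h.2, fun h => ⟨hw, h⟩⟩
      rw [e0 _ (hvP i), e0 _ (hvP' i), inner_neg_right, real_inner_comm]
      by_cases h : s i = 0
      · have h3 : |⟪v i, Z s⟫| < 1 := (hc i).1 h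
        have h3 := abs_lt.1 h3
        have h4 : sg (s i) = 0 := by simp [h, sg]
        rw [h4]
        constructor
        · constructor
          · intro h5; rw [h5] at h3; linarith [h3.2]
          · intro h5; norm_num at h5
        · constructor
          · intro h5; linarith [h3.1]
          · intro h5; norm_num at h5
      · have h2 : ⟪v i, Z s⟫ = sg (s i) := (hc i).2 h
        rw [h2]
        constructor
        · exact Iff.rfl
        · constructor
          · intro h5; linarith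
          · intro h5; linarith
    have hz0 : ∀ s, s = 0 → {x | x ∈ P ∧ ∀ u ∈ P, ⟪Z' s, u⟫ ≤ ⟪Z' s, x⟫} = P := by
      intro s hs0
      ext x
      constructor
      · intro h; exact h.1
      · intro h; exact ⟨h, fun u _ => by simp [hZ', hs0]⟩
    have hnP : ∀ s, Rz v s → s ≠ 0 →
        {x | x ∈ P ∧ ∀ u ∈ P, ⟪Z' s, u⟫ ≤ ⟪Z' s, x⟫} ≠ P := by
      intro s hs hs0 heq
      have h1 := (hm s hs hs0 i₀).1.1 (by rw [heq]; exact hvP i₀)
      have h2 := (hm s hs hs0 i₀).2.1 (by rw [heq]; exact hvP' i₀)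
      rw [h1] at h2; norm_num at h2
    by_cases h0 : s = 0
    · by_cases h0' : s' = 0
      · rw [h0, h0']
      · exfalso
        apply hnP s' hs' h0'
        rw [← hFF', hz0 s h0]
    · by_cases h0' : s' = 0
      · exfalso
        apply hnP s hs h0
        rw [hFF', hz0 s' h0']
      · funext i
        obtain ⟨p1, p2⟩ := hm s hs h0 i
        obtain ⟨q1, q2⟩ := hm s' hs' h0' i
        rw [hFF'] at p1 p2
        have r1 : sg (s i) = 1 ↔ sg (s' i) = 1 := p1.symm.trans q1
        have r2 : sg (s i) = -1 ↔ sg (s' i) = -1 := p2.symm.trans q2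
        have tri : ∀ c : ZMod 3, sg c = 0 ∨ sg c = 1 ∨ sg c = -1 := by
          intro c
          unfold sg
          split_ifs <;> simp
        apply sg_inj
        rcases tri (s i) with h | h | h
        · rcases tri (s' i) with h' | h' | h'
          · rw [h, h']
          · rw [r1.2 h', h']
          · rw [r2.2 h', h']
        · rw [h, r1.1 h]
        · rw [h, r2.1 h]

theorem final (K : ℕ) (hK : ∀ j, 4 ≤ j → j ≤ K → K3R.Kal j) {p : ℕ}
    (a : Fin n → E d) (c : Fin n → Fin p) (w : Fin n → ℝ) (hp : p + d ≤ n + K)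
    (hG : ∀ β : Fin n → ℝ, ∑ i, β i • a i = 0 → ∃ γ : Fin p → ℝ, ∀ i, β i = γ (c i) * w i)
    (P : Set (E d))
    (hP : (P = {x | ∀ i, |⟪a i, x⟫| ≤ 1} ∧ Bornology.IsBounded P) ∨
      (P = convexHull ℝ (Set.range a ∪ Set.range (fun i => -a i)) ∧ (interior P).Nonempty)) :
    (3 : ℕ∞) ^ d ≤ {F : Set (E d) | F.Nonempty ∧ IsExposed ℝ P F}.encard := by
  have hinj : Function.Injective (TT a) := by
    rcases hP with ⟨h1, h2⟩ | ⟨h1, h2⟩
    · exact inj_of_bounded a h1 h2
    · exact inj_of_interior a h1 h2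
  have hfr : finrank ℝ (LinearMap.range (TT a)) = d := by
    rw [LinearMap.finrank_range_of_inj hinj]; simp
  have h1 := main_gale K (base_K K hK) c w (LinearMap.range (TT a))
    (by rw [hfr, Fintype.card_fin]; exact hp) (by
      intro β hβ
      apply hG
      have h2 : ∀ z : E d, ⟪∑ i, β i • a i, z⟫ = 0 := by
        intro z
        rw [sum_inner]
        rw [← hβ (TT a z) ⟨z, rfl⟩]
        refine Finset.sum_congr rfl fun i _ => ?_
        rw [real_inner_smul_left, TT_apply]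
      exact inner_self_eq_zero.1 (h2 _))
  rw [hfr] at h1
  have h2 : (3 : ℕ∞) ^ d ≤ (NL (LinearMap.range (TT a)) : ℕ∞) := by
    exact_mod_cast h1
  refine h2.trans ?_
  rcases hP with ⟨h3, h4⟩ | ⟨h3, h4⟩
  · exact facet_case a h3
  · exact vertex_case a h3 (h4.mono interior_subset)

end

end Pool.Agent.GRD
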