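import Pool.Agent.GRD.Inj

/-!
# Codimension two: reduction to pairwise non-parallel, sorted Gale vectors
-/

set_option autoImplicit false

open scoped BigOperators Classical

namespace Pool.Agent.GRD

noncomputable section

open Module

/-- the solutions of two linear equations -/
def L2 {ι : Type} [Fintype ι] (u v : ι → ℝ) : Submodule ℝ (ι → ℝ) where
  carrier := {y | ∑ i, u i * y i = 0 ∧ ∑ i, v i * y i = 0}
  add_mem' := by
    rintro x y ⟨h1, h2⟩ ⟨h3, h4⟩
    constructor
    · simp only [Pi.add_apply, mul_add, Finset.sum_add_distrib]; rw [h1, h3, add_zero]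
    · simp only [Pi.add_apply, mul_add, Finset.sum_add_distrib]; rw [h2, h4, add_zero]
  zero_mem' := by simp
  smul_mem' := by
    rintro r x ⟨h1, h2⟩
    constructor
    · simp only [Pi.smul_apply, smul_eq_mul, mul_left_comm _ r]
      rw [← Finset.mul_sum, h1, mul_zero]
    · simp only [Pi.smul_apply, smul_eq_mul, mul_left_comm _ r]
      rw [← Finset.mul_sum, h2, mul_zero]

theorem mem_L2 {ι : Type} [Fintype ι] (u v : ι → ℝ) (y : ι → ℝ) :
    y ∈ L2 u v ↔ ∑ i, u i * y i = 0 ∧ ∑ i, v i * y i = 0 := Iff.rfl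

/-- the statement for sorted, pairwise non-parallel vectors in an open half plane -/
def HS : Prop :=
  ∀ (m : ℕ) (u v : Fin m → ℝ), 6 ≤ m → (∀ i j, i < j → 0 < u i * v j - v i * u j) →
    3 ^ (m - 2) ≤ NL (L2 u v)

/-- the dimension -/
theorem finrank_L2 {m : ℕ} (u v : Fin m → ℝ) (h : ∀ i j, i < j → 0 < u i * v j - v i * u j)
    (hm : 2 ≤ m) : finrank ℝ (L2 u v) ≤ m - 2 := by
  -- the coordinates outside `{0, 1}` determine a solution
  let i0 : Fin m := ⟨0, by omega⟩
  let i1 : Fin m := ⟨1, by omega⟩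
  have h01 : i0 ≠ i1 := by intro h; have := congrArg Fin.val h; simp [i0, i1] at this
  let f : L2 u v →ₗ[ℝ] ({i : Fin m // i ≠ i0 ∧ i ≠ i1} → ℝ) :=
    { toFun := fun y i => y.1 i.1
      map_add' := fun _ _ => rfl
      map_smul' := fun _ _ => rfl }
  have hf : Function.Injective f := by
    rw [← LinearMap.ker_eq_bot, LinearMap.ker_eq_bot']
    rintro ⟨y, hy⟩ h0
    have h1 : ∀ i : Fin m, i ≠ i0 → i ≠ i1 → y i = 0 := fun i hi hi' =>
      congrFun h0 ⟨i, hi, hi'⟩
    have h2 : ∀ r : Fin m → ℝ, ∑ i, r i * y i = r i0 * y i0 + r i1 * y i1 := by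
      intro r
      rw [← Finset.sum_subset (Finset.subset_univ ({i0, i1} : Finset (Fin m)))]
      · rw [Finset.sum_pair h01]
      · intro i _ hi
        rw [Finset.mem_insert, Finset.mem_singleton, not_or] at hi
        rw [h1 i hi.1 hi.2, mul_zero]
    rw [mem_L2, h2, h2] at hy
    have hd := h i0 i1 (by show (0 : ℕ) < 1; norm_num)
    have hy0 : y i0 = 0 := by
      have : (u i0 * v i1 - v i0 * u i1) * y i0 = 0 := by
        linear_combination v i1 * hy.1 - u i1 * hy.2
      exact (mul_eq_zero.1 this).resolve_left hd.ne'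
    have hy1 : y i1 = 0 := by
      have : (u i0 * v i1 - v i0 * u i1) * y i1 = 0 := by
        linear_combination u i0 * hy.2 - v i0 * hy.1
      exact (mul_eq_zero.1 this).resolve_left hd.ne'
    apply Subtype.ext
    funext i
    show y i = 0
    by_cases hi : i = i0
    · rw [hi, hy0]
    · by_cases hi' : i = i1
      · rw [hi', hy1]
      · exact h1 i hi hi'
  have h3 := LinearMap.finrank_le_finrank_of_injective (f := f) hf
  rw [Module.finrank_fintype_fun_eq_card] at h3
  refine h3.trans ?_
  rw [Fintype.card_subtype]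
  have h4 : (Finset.univ.filter fun i : Fin m => i ≠ i0 ∧ i ≠ i1) =
      Finset.univ \ {i0, i1} := by
    ext i; simp
  rw [h4, Finset.card_sdiff_of_subset (Finset.subset_univ _), Finset.card_univ, Fintype.card_fin,
    Finset.card_pair h01]

/-- reindexing -/
theorem reindex {ι κ : Type} [Fintype ι] [Fintype κ] (e : κ ≃ ι) (u v : ι → ℝ)
    (h : 3 ^ finrank ℝ (L2 (u ∘ e) (v ∘ e)) ≤ NL (L2 (u ∘ e) (v ∘ e))) :
    3 ^ finrank ℝ (L2 u v) ≤ NL (L2 u v) := by
  have hs : ∀ (r : ι → ℝ) (y : ι → ℝ), ∑ k, r (e k) * y (e k) = ∑ i, r i * y i :=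
    fun r y => Equiv.sum_comp e (fun i => r i * y i)
  have hs' : ∀ (r : ι → ℝ) (z : κ → ℝ), ∑ i, r i * z (e.symm i) = ∑ k, r (e k) * z k := by
    intro r z
    rw [← Equiv.sum_comp e]
    simp
  have h1 : finrank ℝ (L2 u v) ≤ finrank ℝ (L2 (u ∘ e) (v ∘ e)) := by
    let f : L2 u v →ₗ[ℝ] L2 (u ∘ e) (v ∘ e) :=
      { toFun := fun y => ⟨fun k => y.1 (e k), by
          have := y.2
          rw [mem_L2] at this ⊢
          simp only [Function.comp]
          rw [hs, hs]; exact this⟩
        map_add' := fun _ _ => rfl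
        map_smul' := fun _ _ => rfl }
    apply LinearMap.finrank_le_finrank_of_injective (f := f)
    intro y z hyz
    apply Subtype.ext
    funext i
    have := congrFun (congrArg Subtype.val hyz) (e.symm i)
    simpa [f] using this
  have h2 : NL (L2 (u ∘ e) (v ∘ e)) ≤ NL (L2 u v) := by
    unfold NL
    apply Finset.card_le_card_of_injOn (fun s i => s (e.symm i))
    · intro s hsm
      rw [Finset.coe_filter] at hsm ⊢
      obtain ⟨-, y, hy, hc⟩ := hsm
      refine ⟨Finset.mem_univ _, fun i => y (e.symm i), ?_, ?_⟩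
      · rw [mem_L2] at hy ⊢
        rw [hs', hs']; exact hy
      · intro i
        exact hc (e.symm i)
    · intro s _ s' _ hss
      funext k
      have := congrFun hss (e k)
      simpa using this
  exact (Nat.pow_le_pow_right (by norm_num) h1).trans (h.trans h2)

/-- the sorted case for every number of vectors -/
theorem sorted_case (hS : HS) {m : ℕ} (u v : Fin m → ℝ)
    (h : ∀ i j, i < j → 0 < u i * v j - v i * u j) :
    3 ^ finrank ℝ (L2 u v) ≤ NL (L2 u v) := by
  have hB : Base 3 := base_K 3 (fun j h4 h3 => absurd (h4.trans h3) (by norm_num))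
  by_cases hm : 6 ≤ m
  · exact (Nat.pow_le_pow_right (by norm_num) (finrank_L2 u v h (by omega))).trans (hS m u v hm h)
  · apply hB
    by_cases h2 : 2 ≤ m
    · have := finrank_L2 u v h h2
      omega
    · have := Submodule.finrank_le (L2 u v)
      rw [Module.finrank_fin_fun] at this
      omega

/-- the pull-back of a codimension two space is of codimension two -/
theorem LL_L2 {ι : Type} [Fintype ι] {p : ℕ} (c : ι → Fin p) (w : ι → ℝ) (U V : Fin p → ℝ) :
    LL c w (L2 U V) = L2 (fun i => w i * U (c i)) (fun i => w i * V (c i)) := by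
  have key : ∀ (R : Fin p → ℝ) (y : ι → ℝ),
      ∑ j, R j * SS c w y j = ∑ i, w i * R (c i) * y i := by
    intro R y
    simp only [SS_apply, Finset.mul_sum]
    rw [Finset.sum_comm]
    refine Finset.sum_congr rfl fun i _ => ?_
    rw [Finset.sum_eq_single (c i)]
    · rw [if_pos rfl]; ring
    · intro j _ hj
      rw [if_neg (fun h => hj h.symm), mul_zero]
    · intro h; exact absurd (Finset.mem_univ _) h
  ext y
  rw [mem_LL, mem_L2, mem_L2, key, key]

/-- the normal form of a planar configuration -/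
theorem normal_form {ι : Type} [Fintype ι] (u v : ι → ℝ) :
    ∃ (p : ℕ) (U V : Fin p → ℝ) (c : ι → Fin p) (w : ι → ℝ),
      (∀ a b, a < b → 0 < U a * V b - V a * U b) ∧
      (∀ i, u i = w i * U (c i)) ∧ (∀ i, v i = w i * V (c i)) := by
  set T : Finset ℝ := Finset.univ.image fun i => u i / v i with hT
  set k := T.card with hk
  let e : Fin k ≃o T := T.orderIsoOfFin rfl
  let t : Fin k → ℝ := fun a => (e (Fin.rev a) : ℝ)
  have ht : ∀ a b : Fin k, a < b → t b < t a := by
    intro a b hab
    exact (e.lt_iff_lt.2 (Fin.rev_lt_rev.2 hab) : e (Fin.rev b) < e (Fin.rev a))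
  have hmem : ∀ i, u i / v i ∈ T := fun i => Finset.mem_image_of_mem _ (Finset.mem_univ i)
  let ix : ι → Fin k := fun i => Fin.rev (e.symm ⟨u i / v i, hmem i⟩)
  have hix : ∀ i, t (ix i) = u i / v i := by
    intro i
    simp only [t, ix, Fin.rev_rev, OrderIso.apply_symm_apply]
  refine ⟨k + 1, Fin.cons 1 t, Fin.cons 0 (fun _ => 1),
    fun i => if v i = 0 then 0 else (ix i).succ, fun i => if v i = 0 then u i else v i, ?_, ?_, ?_⟩
  · intro a b hab
    cases b using Fin.cases with
    | zero => exact absurd hab (Fin.not_lt_zero a)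
    | succ b =>
      cases a using Fin.cases with
      | zero => simp
      | succ a =>
        simp only [Fin.cons_succ]
        have := ht a b (Fin.succ_lt_succ_iff.1 hab)
        linarith
  · intro i
    by_cases h : v i = 0
    · simp [h]
    · simp only [h, if_false, Fin.cons_succ]
      rw [hix, mul_div_cancel₀ _ h]
  · intro i
    by_cases h : v i = 0
    · simp [h]
    · simp [h]

/-- Kalai's inequality in codimension two -/
theorem k2 (hS : HS) {ι : Type} [Fintype ι] (u v : ι → ℝ) :
    3 ^ finrank ℝ (L2 u v) ≤ NL (L2 u v) := by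
  obtain ⟨p, U, V, c, w, hUV, hu, hv⟩ := normal_form u v
  have h1 : L2 u v = LL c w (L2 U V) := by
    rw [LL_L2]
    congr 1
    · funext i; exact hu i
    · funext i; exact hv i
  rw [h1]
  apply signed_inj
  intro ι' _ c' w' hc' hw'
  rw [LL_L2]
  letI : LinearOrder ι' := LinearOrder.lift' c' hc'
  let e : Fin (Fintype.card ι') ≃o ι' := Fintype.orderIsoFinOfCardEq ι' rfl
  apply reindex e.toEquiv
  apply sorted_case hS
  intro i j hij
  have h2 : c' (e i) < c' (e j) := (e.lt_iff_lt.2 hij : e i < e j)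
  have h3 := hUV _ _ h2
  have h4 := hw' (e i)
  have h5 := hw' (e j)
  simp only [Function.comp]
  show 0 < w' (e i) * U (c' (e i)) * (w' (e j) * V (c' (e j))) -
    w' (e i) * V (c' (e i)) * (w' (e j) * U (c' (e j)))
  have h6 : w' (e i) * U (c' (e i)) * (w' (e j) * V (c' (e j))) -
      w' (e i) * V (c' (e i)) * (w' (e j) * U (c' (e j))) =
      w' (e i) * w' (e j) * (U (c' (e i)) * V (c' (e j)) - V (c' (e i)) * U (c' (e j))) := by
    ring
  rw [h6]
  positivity

/-- every subspace of codimension at most two is of this form -/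
theorem exists_L2 {ι : Type} [Fintype ι] (L : Submodule ℝ (ι → ℝ))
    (h : Fintype.card ι ≤ finrank ℝ L + 2) : ∃ u v : ι → ℝ, L = L2 u v := by
  set A : Submodule ℝ (Dual ℝ (ι → ℝ)) := L.dualAnnihilator with hA
  have h1 : finrank ℝ L + finrank ℝ A = Fintype.card ι := by
    have := Subspace.finrank_add_finrank_dualAnnihilator_eq (K := ℝ) L
    rw [← hA, Module.finrank_fintype_fun_eq_card] at this
    exact this
  have h2 : finrank ℝ A ≤ 2 := by omega
  -- two generators
  have h3 : ∃ φ ψ : Dual ℝ (ι → ℝ), Submodule.span ℝ {φ, ψ} = A := by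
    haveI : Module.Free ℝ A := Module.Free.of_divisionRing ℝ A
    haveI : FiniteDimensional ℝ (Dual ℝ (ι → ℝ)) := inferInstance
    let b := Module.finBasis ℝ A
    let g : Fin 2 → Dual ℝ (ι → ℝ) := fun j =>
      if hj : (j : ℕ) < finrank ℝ A then (b ⟨j, hj⟩ : Dual ℝ (ι → ℝ)) else 0
    refine ⟨g 0, g 1, ?_⟩
    apply le_antisymm
    · rw [Submodule.span_le]
      rintro x (rfl | rfl)
      · show g 0 ∈ A
        simp only [g]; split_ifs
        · exact (b _).2
        · exact A.zero_mem
      · show g 1 ∈ A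
        simp only [g]; split_ifs
        · exact (b _).2
        · exact A.zero_mem
    · intro x hx
      have h4 : x = ((∑ i, b.repr ⟨x, hx⟩ i • b i : A) : Dual ℝ (ι → ℝ)) := by
        rw [b.sum_repr]
      rw [h4, Submodule.coe_sum]
      refine Submodule.sum_mem _ fun i _ => ?_
      rw [Submodule.coe_smul]
      apply Submodule.smul_mem
      apply Submodule.subset_span
      have hi : (i : ℕ) < 2 := lt_of_lt_of_le i.2 h2
      have hg : g ⟨i, hi⟩ = (b i : Dual ℝ (ι → ℝ)) := by
        simp only [g, i.2, dif_pos]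
      rw [← hg]
      rcases (by omega : (i : ℕ) = 0 ∨ (i : ℕ) = 1) with h0 | h0
      · left; congr 1; exact Fin.ext h0
      · right; show _ = g 1; congr 1; exact Fin.ext h0
  obtain ⟨φ, ψ, hsp⟩ := h3
  refine ⟨fun i => φ (Pi.single i 1), fun i => ψ (Pi.single i 1), ?_⟩
  ext y
  rw [mem_L2, ← dual_apply, ← dual_apply]
  rw [← Subspace.dualAnnihilator_dualCoannihilator_eq (W := L), ← hA, ← hsp,
    Submodule.mem_dualCoannihilator]
  constructor
  · intro h
    exact ⟨h φ (Submodule.subset_span (by simp)), h ψ (Submodule.subset_span (by simp))⟩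
  · rintro ⟨h4, h5⟩ χ hχ
    rw [Submodule.mem_span_pair] at hχ
    obtain ⟨r, s, rfl⟩ := hχ
    simp [h4, h5]

open scoped RealInnerProductSpace

/-- at most `d + 2` pairs of facets or of vertices -/
theorem final2 (hS : HS) {d n : ℕ} (a : Fin n → E d) (hn : n ≤ d + 2)
    (P : Set (E d))
    (hP : (P = {x | ∀ i, |⟪a i, x⟫| ≤ 1} ∧ Bornology.IsBounded P) ∨
      (P = convexHull ℝ (Set.range a ∪ Set.range (fun i => -a i)) ∧ (interior P).Nonempty)) :
    (3 : ℕ∞) ^ d ≤ {F : Set (E d) | F.Nonempty ∧ IsExposed ℝ P F}.encard := by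
  have hinj : Function.Injective (TT a) := by
    rcases hP with ⟨h1, h2⟩ | ⟨h1, h2⟩
    · exact inj_of_bounded a h1 h2
    · exact inj_of_interior a h1 h2
  have hfr : finrank ℝ (LinearMap.range (TT a)) = d := by
    rw [LinearMap.finrank_range_of_inj hinj]; simp
  obtain ⟨u, v, huv⟩ := exists_L2 (LinearMap.range (TT a)) (by rw [hfr, Fintype.card_fin]; exact hn)
  have h1 := k2 hS u v
  rw [← huv, hfr] at h1
  have h2 : (3 : ℕ∞) ^ d ≤ (NL (LinearMap.range (TT a)) : ℕ∞) := by
    exact_mod_cast h1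
  refine h2.trans ?_
  rcases hP with ⟨h3, h4⟩ | ⟨h3, h4⟩
  · exact facet_case a h3
  · exact vertex_case a h3 (h4.mono interior_subset)

end

end Pool.Agent.GRD
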