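import Mathlib

/-!
# Kalai's 3^d conjecture and parallel Gale vectors: cells and semicontinuity

`Cell s y`: the point `y` lies in the open cell of the cube `[-1,1]^ι` with sign vector `s`.
`Ks W s`: for a subspace `W` of `(ι → ℝ) × ℝ`, the set of the heights `t` such that the cell `s`
contains a point `y` with `(y, t) ∈ W`.  `Phi W I` counts the sign vectors with `Ks W s` meeting
`I`.
-/

set_option autoImplicit false

open scoped BigOperators Classical

namespace Pool.Agent.GRD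

noncomputable section

/-- real value of a ternary digit -/
def sg (c : ZMod 3) : ℝ := if c = 0 then 0 else if c = 1 then 1 else -1

theorem sg_zero : sg 0 = 0 := by simp [sg]

theorem sg_one : sg 1 = 1 := by
  have h : (1 : ZMod 3) ≠ 0 := by decide
  simp [sg]

theorem sg_two : sg 2 = -1 := by
  have h : (2 : ZMod 3) ≠ 0 := by decide
  have h' : (2 : ZMod 3) ≠ 1 := by decide
  simp [sg, h, h']

theorem zmod3_cases (c : ZMod 3) : c = 0 ∨ c = 1 ∨ c = 2 := by
  revert c; decide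

theorem sg_cases {c : ZMod 3} (h : c ≠ 0) : sg c = 1 ∨ sg c = -1 := by
  unfold sg
  rw [if_neg h]
  split_ifs <;> simp

theorem abs_sg {c : ZMod 3} (h : c ≠ 0) : |sg c| = 1 := by
  rcases sg_cases h with h | h <;> rw [h] <;> simp

theorem sg_mul_self {c : ZMod 3} (h : c ≠ 0) : sg c * sg c = 1 := by
  rcases sg_cases h with h | h <;> rw [h] <;> simp

theorem sg_inj {c c' : ZMod 3} (h : sg c = sg c') : c = c' := by
  rcases zmod3_cases c with rfl | rfl | rfl <;> rcases zmod3_cases c' with rfl | rfl | rfl <;>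
    simp only [sg_zero, sg_one, sg_two] at h <;> first | rfl | (exfalso; norm_num at h)

variable {ι : Type}

/-- `y` lies in the open cell of the cube with sign vector `s` -/
def Cell (s : ι → ZMod 3) (y : ι → ℝ) : Prop :=
  ∀ i, (s i = 0 → |y i| < 1) ∧ (s i ≠ 0 → y i = sg (s i))

theorem Cell.abs_le {s : ι → ZMod 3} {y : ι → ℝ} (h : Cell s y) (i : ι) : |y i| ≤ 1 := by
  by_cases h0 : s i = 0
  · exact ((h i).1 h0).le
  · rw [(h i).2 h0, abs_sg h0]

theorem Cell.unique {s s' : ι → ZMod 3} {y : ι → ℝ} (h : Cell s y) (h' : Cell s' y) : s = s' := by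
  funext i
  by_cases h0 : s i = 0
  · by_cases h0' : s' i = 0
    · rw [h0, h0']
    · exfalso
      have h1 := (h i).1 h0
      rw [(h' i).2 h0', abs_sg h0'] at h1
      exact lt_irrefl _ h1
  · by_cases h0' : s' i = 0
    · exfalso
      have h1 := (h' i).1 h0'
      rw [(h i).2 h0, abs_sg h0] at h1
      exact lt_irrefl _ h1
    · apply sg_inj
      rw [← (h i).2 h0, ← (h' i).2 h0']

theorem Cell.convex {s : ι → ZMod 3} {y z : ι → ℝ} (hy : Cell s y) (hz : Cell s z) {a b : ℝ}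
    (ha : 0 ≤ a) (hb : 0 ≤ b) (hab : a + b = 1) : Cell s (a • y + b • z) := by
  intro i
  simp only [Pi.add_apply, Pi.smul_apply, smul_eq_mul]
  constructor
  · intro h0
    have h1 := (hy i).1 h0
    have h2 := (hz i).1 h0
    rw [abs_lt] at h1 h2 ⊢
    rcases ha.lt_or_eq with ha' | ha'
    · constructor <;> nlinarith
    · subst ha'
      have : b = 1 := by linarith
      subst this
      constructor <;> linarith
  · intro h0
    rw [(hy i).2 h0, (hz i).2 h0, ← add_mul, hab, one_mul]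

/-- the number of cells met by the subspace `L` -/
def NL [Fintype ι] (L : Submodule ℝ (ι → ℝ)) : ℕ :=
  (Finset.univ.filter fun s : ι → ZMod 3 => ∃ y ∈ L, Cell s y).card

/-- heights of the cell `s` -/
def Ks (W : Submodule ℝ ((ι → ℝ) × ℝ)) (s : ι → ZMod 3) : Set ℝ :=
  {t | ∃ y, (y, t) ∈ W ∧ Cell s y}

/-- the number of cells whose heights meet `I` -/
def Phi [Fintype ι] (W : Submodule ℝ ((ι → ℝ) × ℝ)) (I : Set ℝ) : ℕ :=
  (Finset.univ.filter fun s : ι → ZMod 3 => (Ks W s ∩ I).Nonempty).card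

theorem Phi_mono [Fintype ι] (W : Submodule ℝ ((ι → ℝ) × ℝ)) {I J : Set ℝ} (h : I ⊆ J) :
    Phi W I ≤ Phi W J := by
  unfold Phi
  refine Finset.card_le_card fun s hs => ?_
  rw [Finset.mem_filter] at hs ⊢
  exact ⟨hs.1, hs.2.mono (Set.inter_subset_inter_right _ h)⟩

theorem sg_neg (c : ZMod 3) : sg (-c) = - sg c := by
  have h1 : (-1 : ZMod 3) = 2 := by decide
  have h2 : (-2 : ZMod 3) = 1 := by decide
  rcases zmod3_cases c with rfl | rfl | rfl
  · simp [sg_zero]
  · rw [h1, sg_one, sg_two]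
  · rw [h2, sg_one, sg_two, neg_neg]

theorem Cell.neg {s : ι → ZMod 3} {y : ι → ℝ} (h : Cell s y) : Cell (-s) (-y) := by
  intro i
  rw [Pi.neg_apply, Pi.neg_apply, abs_neg, sg_neg]
  exact ⟨fun h0 => (h i).1 (neg_eq_zero.1 h0), fun h0 => by
    rw [(h i).2 (fun h1 => h0 (neg_eq_zero.2 h1))]⟩

theorem Ks_neg (W : Submodule ℝ ((ι → ℝ) × ℝ)) (s : ι → ZMod 3) {t : ℝ}
    (h : t ∈ Ks W s) : -t ∈ Ks W (-s) := by
  obtain ⟨y, hy, hc⟩ := h
  refine ⟨-y, ?_, hc.neg⟩
  have := W.neg_mem hy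
  simpa using this

theorem Phi_neg [Fintype ι] (W : Submodule ℝ ((ι → ℝ) × ℝ)) {I J : Set ℝ}
    (h : ∀ t ∈ I, -t ∈ J) : Phi W I ≤ Phi W J := by
  unfold Phi
  refine Finset.card_le_card_of_injOn (fun s => -s) ?_ (fun a _ b _ hab => neg_injective hab)
  intro s hs
  rw [Finset.mem_coe, Finset.mem_filter] at hs
  rw [Finset.mem_coe, Finset.mem_filter]
  refine ⟨Finset.mem_univ _, ?_⟩
  obtain ⟨t, ht, htI⟩ := hs.2
  exact ⟨-t, Ks_neg W s ht, h t htI⟩

theorem Ks_convex (W : Submodule ℝ ((ι → ℝ) × ℝ)) (s : ι → ZMod 3) {t t' : ℝ}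
    (h : t ∈ Ks W s) (h' : t' ∈ Ks W s) {a b : ℝ} (ha : 0 ≤ a) (hb : 0 ≤ b) (hab : a + b = 1) :
    a * t + b * t' ∈ Ks W s := by
  obtain ⟨y, hy, hc⟩ := h
  obtain ⟨z, hz, hd⟩ := h'
  refine ⟨a • y + b • z, ?_, hc.convex hd ha hb hab⟩
  have := W.add_mem (W.smul_mem a hy) (W.smul_mem b hz)
  simpa using this

theorem Ks_between (W : Submodule ℝ ((ι → ℝ) × ℝ)) (s : ι → ZMod 3) {t t' r : ℝ}
    (h : t ∈ Ks W s) (h' : t' ∈ Ks W s) (h1 : t ≤ r) (h2 : r ≤ t') : r ∈ Ks W s := by
  rcases eq_or_lt_of_le (h1.trans h2) with he | hlt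
  · have : r = t := le_antisymm (by linarith) h1
    rw [this]; exact h
  · have hpos : 0 < t' - t := by linarith
    have := Ks_convex W s h h' (a := (t' - r) / (t' - t)) (b := (r - t) / (t' - t))
      (div_nonneg (by linarith) hpos.le) (div_nonneg (by linarith) hpos.le)
      (by field_simp; ring)
    have he : (t' - r) / (t' - t) * t + (r - t) / (t' - t) * t' = r := by
      field_simp; ring
    rwa [he] at this

/-- the set of heights is relatively open -/
theorem Ks_open [Fintype ι] (W : Submodule ℝ ((ι → ℝ) × ℝ)) (s : ι → ZMod 3) {t t' : ℝ}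
    (h : t ∈ Ks W s) (h' : t' ∈ Ks W s) (hne : t ≠ t') :
    ∃ δ : ℝ, 0 < δ ∧ ∀ r, |r - t| < δ → r ∈ Ks W s := by
  obtain ⟨y, hy, hc⟩ := h
  obtain ⟨z, hz, hd⟩ := h'
  have h1 : ∀ᶠ η in nhds (0 : ℝ), ∀ i, s i = 0 → |y i + η * (y i - z i)| < 1 := by
    rw [Filter.eventually_all]
    intro i
    by_cases h0 : s i = 0
    · have hlt := (hc i).1 h0
      have hcont : Continuous fun η : ℝ => |y i + η * (y i - z i)| := by fun_prop
      have : ∀ᶠ η in nhds (0 : ℝ), |y i + η * (y i - z i)| < 1 := by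
        apply hcont.continuousAt.eventually_lt continuousAt_const
        simpa using hlt
      filter_upwards [this] with η hη _ using hη
    · exact Filter.Eventually.of_forall fun _ h => absurd h h0
  rw [Metric.eventually_nhds_iff] at h1
  obtain ⟨ε, hε, hball⟩ := h1
  have hpos : 0 < |t - t'| := abs_pos.2 (sub_ne_zero.2 hne)
  refine ⟨ε * |t - t'|, mul_pos hε hpos, fun r hr => ?_⟩
  have hne' : t - t' ≠ 0 := sub_ne_zero.2 hne
  set η : ℝ := (r - t) / (t - t') with hη
  have hηε : dist η 0 < ε := by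
    rw [dist_zero_right, Real.norm_eq_abs, hη, abs_div, div_lt_iff₀ hpos]
    exact hr
  have h2 := hball hηε
  refine ⟨y + η • (y - z), ?_, ?_⟩
  · have := W.add_mem hy (W.smul_mem η (W.sub_mem hy hz))
    have he : t + η * (t - t') = r := by rw [hη]; field_simp; ring
    simpa [he] using this
  · intro i
    simp only [Pi.add_apply, Pi.smul_apply, Pi.sub_apply, smul_eq_mul]
    refine ⟨fun h0 => h2 i h0, fun h0 => ?_⟩
    rw [(hc i).2 h0, (hd i).2 h0]; ring

end

end Pool.Agent.GRD
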