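import Pool.Agent.GRD.Ind
import Pool.Agent.K3R.Bridge

/-!
# The base: Kalai's inequality in dimension at most `K`
-/

set_option autoImplicit false

open scoped BigOperators Classical

namespace Pool.Agent.GRD

noncomputable section

open Module

variable {ι : Type}

/-- the coordinate functionals -/
def ev (L : Submodule ℝ (ι → ℝ)) (i : ι) : Module.Dual ℝ L :=
  (LinearMap.proj i).comp L.subtype

theorem ev_apply (L : Submodule ℝ (ι → ℝ)) (i : ι) (y : L) : ev L i y = y.1 i := rfl

/-- the configuration of the coordinate functionals and their negatives -/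
def cfg (L : Submodule ℝ (ι → ℝ)) : Set (Module.Dual ℝ L) :=
  Set.range (ev L) ∪ Set.range (fun i => - ev L i)

theorem cfg_finite [Fintype ι] (L : Submodule ℝ (ι → ℝ)) : (cfg L).Finite :=
  (Set.finite_range _).union (Set.finite_range _)

theorem cfg_sym (L : Submodule ℝ (ι → ℝ)) : ∀ x ∈ cfg L, -x ∈ cfg L := by
  rintro x (⟨i, rfl⟩ | ⟨i, rfl⟩)
  · exact Or.inr ⟨i, rfl⟩
  · exact Or.inl ⟨i, by simp⟩

theorem ev_mem (L : Submodule ℝ (ι → ℝ)) (i : ι) : ev L i ∈ cfg L := Or.inl ⟨i, rfl⟩

theorem nev_mem (L : Submodule ℝ (ι → ℝ)) (i : ι) : - ev L i ∈ cfg L := Or.inr ⟨i, rfl⟩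

theorem span_cfg [Fintype ι] (L : Submodule ℝ (ι → ℝ)) : Submodule.span ℝ (cfg L) = ⊤ := by
  by_contra h
  obtain ⟨f, hf0, hf⟩ := Submodule.exists_le_ker_of_lt_top _ (lt_top_iff_ne_top.2 h)
  obtain ⟨y, hy⟩ := (Module.evalEquiv ℝ L).surjective f
  apply hf0
  have hy0 : y = 0 := by
    apply Subtype.ext
    funext i
    have h1 : f (ev L i) = 0 :=
      LinearMap.mem_ker.1 (hf (Submodule.subset_span (ev_mem L i)))
    rw [← hy] at h1
    exact h1
  rw [← hy, hy0, map_zero]

theorem dm_cfg [Fintype ι] (L : Submodule ℝ (ι → ℝ)) : K3R.dm (cfg L) = finrank ℝ L := by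
  unfold K3R.dm
  rw [span_cfg, finrank_top, Subspace.dual_finrank_eq]

/-- the sign vector of a face -/
def sv (L : Submodule ℝ (ι → ℝ)) (A : Set (Module.Dual ℝ L)) : ι → ZMod 3 :=
  if A = cfg L then 0 else fun i => if ev L i ∈ A then 1 else if - ev L i ∈ A then 2 else 0

theorem sv_cell [Fintype ι] (L : Submodule ℝ (ι → ℝ)) {A : Set (Module.Dual ℝ L)}
    (hA : K3R.IsF (cfg L) A) : ∃ y ∈ L, Cell (sv L A) y := by
  by_cases hAS : A = cfg L
  · refine ⟨0, L.zero_mem, fun i => ?_⟩
    unfold sv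
    rw [if_pos hAS]
    simp
  · obtain ⟨hsub, hne, φ, c, h1, h2⟩ := hA
    have hc := K3R.pos_of_ne (cfg_sym L) hsub hAS hne h1 h2
    obtain ⟨z, hz⟩ := (Module.evalEquiv ℝ L).surjective φ
    have hzi : ∀ i, z.1 i = φ (ev L i) := fun i => by rw [← hz]; rfl
    have e01 : (1 : ZMod 3) ≠ 0 := by decide
    have e02 : (2 : ZMod 3) ≠ 0 := by decide
    refine ⟨c⁻¹ • z.1, L.smul_mem _ z.2, fun i => ?_⟩
    unfold sv
    rw [if_neg hAS]
    simp only [Pi.smul_apply, smul_eq_mul]
    rw [hzi i]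
    by_cases hp : ev L i ∈ A
    · rw [if_pos hp]
      refine ⟨fun h => absurd h e01, fun _ => ?_⟩
      rw [h1 _ hp, sg_one]
      field_simp
    · rw [if_neg hp]
      have h3 := h2 _ (ev_mem L i) hp
      by_cases hq : - ev L i ∈ A
      · rw [if_pos hq]
        refine ⟨fun h => absurd h e02, fun _ => ?_⟩
        have h4 := h1 _ hq
        rw [map_neg] at h4
        have h5 : φ (ev L i) = -c := by linarith
        rw [h5, sg_two]
        field_simp
      · rw [if_neg hq]
        refine ⟨fun _ => ?_, fun h => absurd rfl h⟩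
        have h4 := h2 _ (nev_mem L i) hq
        rw [map_neg] at h4
        rw [abs_mul, abs_of_pos (inv_pos.2 hc), inv_mul_lt_iff₀ hc, mul_one, abs_lt]
        constructor <;> linarith

theorem sv_inj [Fintype ι] (L : Submodule ℝ (ι → ℝ)) :
    Set.InjOn (sv L) (K3R.Fc (cfg L)) := by
  have e10 : (1 : ZMod 3) ≠ 0 := by decide
  have e20 : (2 : ZMod 3) ≠ 0 := by decide
  have e21 : (2 : ZMod 3) ≠ 1 := by decide
  have hval : ∀ A : Set (Module.Dual ℝ L), A ≠ cfg L → ∀ i,
      sv L A i = if ev L i ∈ A then 1 else if - ev L i ∈ A then 2 else 0 := by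
    intro A hA i
    unfold sv
    rw [if_neg hA]
  have hne0 : ∀ A : Set (Module.Dual ℝ L), K3R.IsF (cfg L) A → A ≠ cfg L → sv L A ≠ 0 := by
    intro A hA hAS h0
    obtain ⟨hsub, ⟨x, hx⟩, -⟩ := hA
    rcases hsub hx with ⟨i, rfl⟩ | ⟨i, rfl⟩
    · have := congrFun h0 i
      rw [hval A hAS, if_pos hx] at this
      exact e10 this
    · have := congrFun h0 i
      rw [hval A hAS] at this
      by_cases hp : ev L i ∈ A
      · rw [if_pos hp] at this
        exact e10 this
      · rw [if_neg hp, if_pos hx] at this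
        exact e20 this
  have hsub : ∀ A B : Set (Module.Dual ℝ L), K3R.IsF (cfg L) A → A ≠ cfg L → B ≠ cfg L →
      sv L A = sv L B → A ⊆ B := by
    intro A B hA hAS hBS h x hx
    have hA' := hA
    obtain ⟨hsub, hne, φ, c, h1, h2⟩ := hA
    have hc := K3R.pos_of_ne (cfg_sym L) hsub hAS hne h1 h2
    rcases hsub hx with ⟨i, rfl⟩ | ⟨i, rfl⟩
    · have h3 := congrFun h i
      rw [hval A hAS, if_pos hx, hval B hBS] at h3
      by_contra hB
      rw [if_neg hB] at h3
      split_ifs at h3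
      · exact e21 h3.symm
      · exact e10 h3
    · have hp : ev L i ∉ A := by
        intro hp
        have h4 := h1 _ hp
        have h5 := h1 _ hx
        rw [map_neg] at h5
        linarith
      have h3 := congrFun h i
      rw [hval A hAS, if_neg hp, if_pos hx, hval B hBS] at h3
      by_contra hB
      rw [if_neg hB] at h3
      split_ifs at h3
      · exact e21 h3
      · exact e20 h3
  intro A hA B hB h
  by_cases hAS : A = cfg L
  · by_cases hBS : B = cfg L
    · rw [hAS, hBS]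
    · exfalso
      apply hne0 B hB hBS
      rw [← h]
      unfold sv
      rw [if_pos hAS]
  · by_cases hBS : B = cfg L
    · exfalso
      apply hne0 A hA hAS
      rw [h]
      unfold sv
      rw [if_pos hBS]
    · exact subset_antisymm (hsub A B hA hAS hBS h) (hsub B A hB hBS hAS h.symm)

theorem NF_le_NL [Fintype ι] (L : Submodule ℝ (ι → ℝ)) : K3R.NF (cfg L) ≤ NL L := by
  unfold K3R.NF NL
  rw [← Set.ncard_coe_finset]
  refine Set.ncard_le_ncard_of_injOn (sv L) (fun A hA => ?_) (sv_inj L) (Finset.finite_toSet _)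
  rw [Finset.coe_filter]
  exact ⟨Finset.mem_univ _, sv_cell L hA⟩

theorem one_le_NL [Fintype ι] (L : Submodule ℝ (ι → ℝ)) : 1 ≤ NL L := by
  unfold NL
  rw [Nat.one_le_iff_ne_zero, ← Nat.pos_iff_ne_zero, Finset.card_pos]
  refine ⟨0, ?_⟩
  rw [Finset.mem_filter]
  exact ⟨Finset.mem_univ _, 0, L.zero_mem, fun i => by simp⟩

theorem base_K (K : ℕ) (hK : ∀ j, 4 ≤ j → j ≤ K → K3R.Kal j) : Base K := by
  intro ι hι L hL
  by_cases h0 : finrank ℝ L = 0
  · rw [h0, pow_zero]
    exact one_le_NL L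
  · have hne : (cfg L).Nonempty := by
      by_contra hemp
      rw [Set.not_nonempty_iff_eq_empty] at hemp
      apply h0
      rw [← dm_cfg L]
      unfold K3R.dm
      rw [hemp, Submodule.span_empty, finrank_bot]
    have h1 := K3R.cfg_of_Kal K hK (cfg L) (cfg_finite L) hne (cfg_sym L) (by rw [dm_cfg]; exact hL)
    rw [dm_cfg] at h1
    exact h1.trans (NF_le_NL L)

end

end Pool.Agent.GRD
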