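import Pool.Agent.GRD.Core

/-!
# Semicontinuity: the central slice has at most as many faces as the slices nearby
-/

set_option autoImplicit false

open scoped BigOperators Classical

namespace Pool.Agent.GRD

noncomputable section

variable {ι : Type} [Fintype ι]

/-- `s'` arises from `s` by zeroing entries and its cell has points of positive height -/
def Gd (W : Submodule ℝ ((ι → ℝ) × ℝ)) (s s' : ι → ZMod 3) : Prop :=
  (∀ i, s' i = 0 ∨ s' i = s i) ∧ ∃ (y : ι → ℝ) (t : ℝ), (y, t) ∈ W ∧ 0 < t ∧ Cell s' y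

/-- size of the support -/
def spc (s : ι → ZMod 3) : ℕ := (Finset.univ.filter fun i => s i ≠ 0).card

theorem exists_small (y : ι → ℝ) : ∃ ε : ℝ, 0 < ε ∧ ∀ i, |ε * y i| < 1 := by
  have hS : 0 ≤ ∑ i, |y i| := Finset.sum_nonneg fun i _ => abs_nonneg _
  refine ⟨1 / (1 + ∑ i, |y i|), by positivity, fun i => ?_⟩
  have h1 : |y i| ≤ ∑ i, |y i| :=
    Finset.single_le_sum (f := fun i => |y i|) (fun i _ => abs_nonneg _) (Finset.mem_univ i)
  rw [abs_mul, abs_of_pos (by positivity), one_div, inv_mul_lt_iff₀ (by positivity)]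
  linarith

theorem gd_zero (W : Submodule ℝ ((ι → ℝ) × ℝ)) (hW : ∃ q ∈ W, q.2 ≠ 0) (s : ι → ZMod 3) :
    Gd W s 0 := by
  obtain ⟨q, hq, hq2⟩ := hW
  have key : ∃ q ∈ W, 0 < q.2 := by
    rcases lt_or_gt_of_ne hq2 with h | h
    · exact ⟨-q, W.neg_mem hq, by simpa using h⟩
    · exact ⟨q, hq, h⟩
  obtain ⟨q, hq, hq2⟩ := key
  obtain ⟨ε, hε, hs⟩ := exists_small q.1
  refine ⟨fun i => Or.inl rfl, ε • q.1, ε * q.2, W.smul_mem ε hq, mul_pos hε hq2, fun i => ?_⟩
  exact ⟨fun _ => hs i, fun h => absurd rfl h⟩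

theorem exists_max (W : Submodule ℝ ((ι → ℝ) × ℝ)) (hW : ∃ q ∈ W, q.2 ≠ 0) (s : ι → ZMod 3) :
    ∃ s', Gd W s s' ∧ ∀ s'', Gd W s s'' → spc s'' ≤ spc s' := by
  have hne : (Finset.univ.filter fun s' : ι → ZMod 3 => Gd W s s').Nonempty :=
    ⟨0, Finset.mem_filter.2 ⟨Finset.mem_univ _, gd_zero W hW s⟩⟩
  obtain ⟨s', hs', hmax⟩ := Finset.exists_max_image _ spc hne
  refine ⟨s', (Finset.mem_filter.1 hs').2, fun s'' h => ?_⟩
  exact hmax s'' (Finset.mem_filter.2 ⟨Finset.mem_univ _, h⟩)

theorem agree (W : Submodule ℝ ((ι → ℝ) × ℝ)) {s s' : ι → ZMod 3} (hg : Gd W s s')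
    (hmax : ∀ s'', Gd W s s'' → spc s'' ≤ spc s') {y1 y2 : ι → ℝ} (h1 : (y1, (0 : ℝ)) ∈ W)
    (hc1 : Cell s y1) (h2 : (y2, (0 : ℝ)) ∈ W) (hb : ∀ i, |y2 i| ≤ 1)
    (ha : ∀ i, s' i ≠ 0 → y2 i = sg (s' i)) : ∀ i, s i ≠ 0 → y2 i = sg (s i) := by
  by_contra hcon
  push_neg at hcon
  obtain ⟨i0, hi0, hne0⟩ := hcon
  obtain ⟨hle, y', t', hW', ht', hc'⟩ := hg
  set α : ι → ℝ := fun i => 1 - sg (s i) * y' i with hα
  set β : ι → ℝ := fun i => 1 - sg (s i) * y2 i with hβ
  have hs's : ∀ i, s' i ≠ 0 → s' i = s i := fun i h => (hle i).resolve_left h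
  have hαpos : ∀ i, s i ≠ 0 → s' i = 0 → 0 < α i := by
    intro i hi hi'
    have h3 := (hc' i).1 hi'
    have h4 : |sg (s i) * y' i| < 1 := by rw [abs_mul, abs_sg hi, one_mul]; exact h3
    have := (abs_lt.1 h4).2
    simp only [hα]; linarith
  have hβnn : ∀ i, s i ≠ 0 → 0 ≤ β i := by
    intro i hi
    have h4 : |sg (s i) * y2 i| ≤ 1 := by rw [abs_mul, abs_sg hi, one_mul]; exact hb i
    have := (abs_le.1 h4).2
    simp only [hβ]; linarith
  have hβ0 : 0 < β i0 := by
    rcases (hβnn i0 hi0).lt_or_eq with h | h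
    · exact h
    · exfalso
      apply hne0
      have h5 : sg (s i0) * y2 i0 = 1 := by simp only [hβ] at h; linarith
      have h6 := sg_mul_self hi0
      have h7 : sg (s i0) ≠ 0 := by intro h0; rw [h0] at h6; simp at h6
      apply mul_left_cancel₀ h7
      rw [h5, h6]
  have hi0' : s' i0 = 0 := by
    by_contra h
    apply hne0
    rw [ha i0 h, hs's i0 h]
  set T : Finset ι := Finset.univ.filter fun i => s i ≠ 0 ∧ s' i = 0 ∧ 0 < β i with hT
  have hTmem : ∀ i, i ∈ T ↔ s i ≠ 0 ∧ s' i = 0 ∧ 0 < β i := fun i => by simp [hT]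
  have hTne : T.Nonempty := ⟨i0, (hTmem i0).2 ⟨hi0, hi0', hβ0⟩⟩
  obtain ⟨j, hjT, hjmin⟩ := Finset.exists_min_image T (fun i => α i / β i) hTne
  obtain ⟨hj1, hj2, hj3⟩ := (hTmem j).1 hjT
  set ρ : ℝ := α j / β j with hρ
  have hρpos : 0 < ρ := div_pos (hαpos j hj1 hj2) hj3
  have hjρ : α j = ρ * β j := by rw [hρ]; field_simp
  set z : ι → ℝ := fun i => (y' i - y1 i) + ρ * (y1 i - y2 i) with hz
  -- choose a small `ε`
  have hev : ∀ᶠ ε in nhds (0 : ℝ), ∀ i, (s i = 0 → |y1 i + ε * z i| < 1) ∧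
      ε * (α i - ρ * β i) < 2 := by
    rw [Filter.eventually_all]
    intro i
    apply Filter.Eventually.and
    · by_cases h0 : s i = 0
      · have hcont : Continuous fun ε : ℝ => |y1 i + ε * z i| := by fun_prop
        have : ∀ᶠ ε in nhds (0 : ℝ), |y1 i + ε * z i| < 1 := by
          apply hcont.continuousAt.eventually_lt continuousAt_const
          simpa using (hc1 i).1 h0
        filter_upwards [this] with η hη _ using hη
      · exact Filter.Eventually.of_forall fun _ h => absurd h h0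
    · have hcont : Continuous fun ε : ℝ => ε * (α i - ρ * β i) := by fun_prop
      apply hcont.continuousAt.eventually_lt continuousAt_const
      simp
  rw [Metric.eventually_nhds_iff] at hev
  obtain ⟨δ, hδ, hball⟩ := hev
  set ε : ℝ := min (δ / 2) (1 / 2) with hε
  have hεpos : 0 < ε := lt_min (by linarith) (by norm_num)
  have hε1 : ε < 1 := lt_of_le_of_lt (min_le_right _ _) (by norm_num)
  have hεδ : dist ε 0 < δ := by
    rw [dist_zero_right, Real.norm_eq_abs, abs_of_pos hεpos]
    exact lt_of_le_of_lt (min_le_left _ _) (by linarith)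
  have hsm := hball hεδ
  set s'' : ι → ZMod 3 := fun i => if s' i ≠ 0 ∨ (i ∈ T ∧ α i = ρ * β i) then s i else 0 with hs''
  have hgd : Gd W s s'' := by
    refine ⟨fun i => ?_, fun i => y1 i + ε * z i, ε * t', ?_, mul_pos hεpos ht', ?_⟩
    · simp only [hs'']
      split_ifs
      · exact Or.inr rfl
      · exact Or.inl rfl
    · have h3 := W.add_mem h1 (W.add_mem (W.smul_mem ε (W.sub_mem hW' h1))
        (W.smul_mem (ε * ρ) (W.sub_mem h1 h2)))
      have h4 : ((fun i => y1 i + ε * z i), ε * t') =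
          (y1, (0 : ℝ)) + (ε • ((y', t') - (y1, (0 : ℝ))) +
            (ε * ρ) • ((y1, (0 : ℝ)) - (y2, (0 : ℝ)))) := by
        ext i
        · simp [hz]; ring
        · simp
      rw [h4]
      exact h3
    · intro i
      -- value of the coordinate
      have hval : s i ≠ 0 → y1 i + ε * z i = sg (s i) * (1 - ε * (α i - ρ * β i)) := by
        intro hi
        have h5 := (hc1 i).2 hi
        have h6 := sg_mul_self hi
        simp only [hz, hα, hβ, h5]
        linear_combination (ε * y' i - ε * ρ * y2 i) * (h6 : sg (s i) * sg (s i) = 1) * (-1 : ℝ)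
      by_cases hcase : s' i ≠ 0 ∨ (i ∈ T ∧ α i = ρ * β i)
      · have hsi : s i ≠ 0 := by
          rcases hcase with h | h
          · rw [← hs's i h]; exact h
          · exact ((hTmem i).1 h.1).1
        have hs''i : s'' i = s i := by simp only [hs'']; rw [if_pos hcase]
        have hαβ : α i - ρ * β i = 0 := by
          rcases hcase with h | h
          · have e1 : y' i = sg (s i) := by rw [(hc' i).2 h, hs's i h]
            have e2 : y2 i = sg (s i) := by rw [ha i h, hs's i h]
            simp only [hα, hβ, e1, e2, sg_mul_self hsi]; ring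
          · rw [h.2]; ring
        refine ⟨fun h0 => absurd (hs''i ▸ h0) hsi, fun _ => ?_⟩
        show y1 i + ε * z i = sg (s'' i)
        rw [hval hsi, hαβ, hs''i]; ring
      · have hs''i : s'' i = 0 := by simp only [hs'']; rw [if_neg hcase]
        refine ⟨fun _ => ?_, fun h0 => absurd hs''i h0⟩
        by_cases hsi : s i = 0
        · exact (hsm i).1 hsi
        · have hs'i : s' i = 0 := by
            by_contra h; exact hcase (Or.inl h)
          have hpos : 0 < α i - ρ * β i := by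
            rcases (hβnn i hsi).lt_or_eq with h | h
            · have hiT : i ∈ T := (hTmem i).2 ⟨hsi, hs'i, h⟩
              have h7 := hjmin i hiT
              have h8 : ρ * β i ≤ α i := by
                rwa [le_div_iff₀ h] at h7
              rcases h8.lt_or_eq with h9 | h9
              · linarith
              · exact absurd (Or.inr ⟨hiT, h9.symm⟩) hcase
            · rw [← h]
              have := hαpos i hsi hs'i
              linarith
          have h10 := (hsm i).2
          have h11 : 0 < ε * (α i - ρ * β i) := mul_pos hεpos hpos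
          show |y1 i + ε * z i| < 1
          rw [hval hsi, abs_mul, abs_sg hsi, one_mul, abs_lt]
          constructor <;> linarith
  have hlt : spc s' < spc s'' := by
    unfold spc
    apply Finset.card_lt_card
    rw [Finset.ssubset_iff_of_subset]
    · refine ⟨j, ?_, ?_⟩
      · rw [Finset.mem_filter]
        refine ⟨Finset.mem_univ _, ?_⟩
        simp only [hs'']
        rw [if_pos (Or.inr ⟨hjT, hjρ⟩)]
        exact hj1
      · rw [Finset.mem_filter]
        intro h
        exact h.2 hj2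
    · intro i hi
      rw [Finset.mem_filter] at hi ⊢
      refine ⟨Finset.mem_univ _, ?_⟩
      simp only [hs'']
      rw [if_pos (Or.inl hi.2), ← hs's i hi.2]
      exact hi.2
  exact absurd (hmax s'' hgd) (not_le.2 hlt)

/-- semicontinuity of the number of faces at the central slice -/
theorem semi (W : Submodule ℝ ((ι → ℝ) × ℝ)) (hW : ∃ q ∈ W, q.2 ≠ 0) {A : ℝ} (hA : 0 < A) :
    Phi W {0} ≤ Phi W (Set.Ioo 0 A) := by
  choose f hf hfmax using exists_max W hW
  unfold Phi
  refine Finset.card_le_card_of_injOn f ?_ ?_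
  · intro s hs
    rw [Finset.mem_coe, Finset.mem_filter] at hs
    rw [Finset.mem_coe, Finset.mem_filter]
    refine ⟨Finset.mem_univ _, ?_⟩
    obtain ⟨t0, ⟨y1, h1, hc1⟩, ht0⟩ := hs.2
    rw [Set.mem_singleton_iff] at ht0
    subst ht0
    obtain ⟨hle, y', t', hW', ht', hc'⟩ := hf s
    set ε : ℝ := min (1 / 2) (A / (2 * t')) with hε
    have hεpos : 0 < ε := lt_min (by norm_num) (by positivity)
    have hε1 : ε ≤ 1 / 2 := min_le_left _ _
    have hε2 : ε * t' < A := by
      have : ε ≤ A / (2 * t') := min_le_right _ _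
      rw [le_div_iff₀ (by positivity)] at this
      nlinarith
    refine ⟨ε * t', ⟨fun i => (1 - ε) * y1 i + ε * y' i, ?_, ?_⟩, mul_pos hεpos ht', hε2⟩
    · have h3 := W.add_mem (W.smul_mem (1 - ε) h1) (W.smul_mem ε hW')
      have h4 : ((fun i => (1 - ε) * y1 i + ε * y' i), ε * t') =
          (1 - ε) • (y1, (0 : ℝ)) + ε • (y', t') := by
        ext i
        · simp
        · simp
      rw [h4]; exact h3
    · intro i
      constructor
      · intro h0
        have h5 := hc1.abs_le i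
        have h6 := (hc' i).1 h0
        rw [abs_le] at h5
        rw [abs_lt] at h6 ⊢
        constructor <;> nlinarith
      · intro h0
        have h5 : f s i = s i := (hle i).resolve_left h0
        have h6 : s i ≠ 0 := h5 ▸ h0
        show (1 - ε) * y1 i + ε * y' i = sg (f s i)
        rw [(hc1 i).2 h6, (hc' i).2 h0, h5]; ring
  · intro s1 hs1 s2 hs2 h12
    rw [Finset.mem_coe, Finset.mem_filter] at hs1 hs2
    obtain ⟨t1, ⟨y1, h1, hc1⟩, ht1⟩ := hs1.2
    obtain ⟨t2, ⟨y2, h2, hc2⟩, ht2⟩ := hs2.2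
    rw [Set.mem_singleton_iff] at ht1 ht2
    subst ht1
    subst ht2
    have hkey : ∀ (s1 s2 : ι → ZMod 3) (y1 y2 : ι → ℝ), f s1 = f s2 → (y1, (0 : ℝ)) ∈ W →
        Cell s1 y1 → (y2, (0 : ℝ)) ∈ W → Cell s2 y2 → ∀ i, s1 i ≠ 0 → s2 i = s1 i := by
      intro s1 s2 y1 y2 h12 h1 hc1 h2 hc2 i hi
      have h3 := agree W (hf s1) (hfmax s1) h1 hc1 h2 hc2.abs_le (fun k hk => by
        rw [h12] at hk ⊢
        have h4 : f s2 k = s2 k := ((hf s2).1 k).resolve_left hk
        have h5 : s2 k ≠ 0 := h4 ▸ hk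
        rw [(hc2 k).2 h5, h4]) i hi
      by_cases h0 : s2 i = 0
      · exfalso
        have h6 := (hc2 i).1 h0
        rw [h3, abs_sg hi] at h6
        exact lt_irrefl _ h6
      · apply sg_inj
        rw [← (hc2 i).2 h0, h3]
    funext i
    by_cases h : s1 i = 0
    · by_cases h' : s2 i = 0
      · rw [h, h']
      · have := hkey s2 s1 y2 y1 h12.symm h2 hc2 h1 hc1 i h'
        exact this
    · exact (hkey s1 s2 y1 y2 h12 h1 hc1 h2 hc2 i h).symm

theorem semi' (W : Submodule ℝ ((ι → ℝ) × ℝ)) (hW : ∃ q ∈ W, q.2 ≠ 0) {A : ℝ} (hA : 0 < A) :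
    Phi W {0} ≤ Phi W (Set.Ioo (-A) 0) := by
  refine (semi W hW hA).trans (Phi_neg W fun t ht => ?_)
  exact ⟨by linarith [ht.2], by linarith [ht.1]⟩

end

end Pool.Agent.GRD
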