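import Pool.Agent.GRD.BaseK

/-!
# Signed weights and the condition on the relations
-/

set_option autoImplicit false

open scoped BigOperators Classical

namespace Pool.Agent.GRD

noncomputable section

open Module

variable {ι : Type} [Fintype ι] {p : ℕ}

/-- the sign of a weight -/
def es (w : ι → ℝ) (i : ι) : ℝ := if 0 ≤ w i then 1 else -1

/-- the sign of a weight as a digit -/
def ez (w : ι → ℝ) (i : ι) : ZMod 3 := if 0 ≤ w i then 1 else -1

theorem es_mul_self (w : ι → ℝ) (i : ι) : es w i * es w i = 1 := by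
  unfold es; split_ifs <;> norm_num

theorem es_abs (w : ι → ℝ) (i : ι) : |w i| = es w i * w i := by
  unfold es
  split_ifs with h
  · rw [abs_of_nonneg h, one_mul]
  · rw [abs_of_neg (not_le.1 h)]; ring

theorem ez_mul_self (w : ι → ℝ) (i : ι) : ez w i * ez w i = 1 := by
  unfold ez; split_ifs <;> decide

theorem ez_ne (w : ι → ℝ) (i : ι) : ez w i ≠ 0 := by
  unfold ez; split_ifs <;> decide

theorem sg_ez (w : ι → ℝ) (i : ι) (c : ZMod 3) : sg (ez w i * c) = es w i * sg c := by
  unfold ez es
  split_ifs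
  · rw [one_mul, one_mul]
  · rw [neg_one_mul, neg_one_mul, sg_neg]

/-- flipping of the coordinates -/
def flip (w : ι → ℝ) : (ι → ℝ) →ₗ[ℝ] (ι → ℝ) where
  toFun y := fun i => es w i * y i
  map_add' x y := by funext i; simp only [Pi.add_apply]; ring
  map_smul' r x := by
    funext i; simp only [Pi.smul_apply, smul_eq_mul, RingHom.id_apply]; ring

theorem flip_apply (w : ι → ℝ) (y : ι → ℝ) (i : ι) : flip w y i = es w i * y i := rfl

theorem flip_flip (w : ι → ℝ) (y : ι → ℝ) : flip w (flip w y) = y := by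
  funext i
  rw [flip_apply, flip_apply, ← mul_assoc, es_mul_self, one_mul]

theorem abs_es (w : ι → ℝ) (i : ι) : |es w i| = 1 := by
  unfold es; split_ifs <;> simp

theorem Cell.flip {s : ι → ZMod 3} {y : ι → ℝ} (w : ι → ℝ) (h : Cell s y) :
    Cell (fun i => ez w i * s i) (flip w y) := by
  intro i
  rw [flip_apply]
  constructor
  · intro h0
    have : s i = 0 := (mul_eq_zero.1 h0).resolve_left (ez_ne w i)
    rw [abs_mul, abs_es, one_mul]
    exact (h i).1 this
  · intro h0
    have : s i ≠ 0 := fun h' => h0 (by show ez w i * s i = 0; rw [h', mul_zero])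
    rw [(h i).2 this, sg_ez]

theorem SS_abs (c : ι → Fin p) (w : ι → ℝ) (y : ι → ℝ) :
    SS c (fun i => |w i|) y = SS c w (flip w y) := by
  funext j
  rw [SS_apply, SS_apply]
  refine Finset.sum_congr rfl fun i _ => ?_
  split_ifs
  · rw [es_abs, flip_apply]; ring
  · rfl

theorem main_signed (K : ℕ) (hB : Base K) (c : ι → Fin p) (w : ι → ℝ)
    (Λ : Submodule ℝ (Fin p → ℝ)) (hΛ : finrank ℝ Λ ≤ K) :
    3 ^ finrank ℝ (LL c w Λ) ≤ NL (LL c w Λ) := by
  have h1 := main_ind K hB (Fintype.card ι) ι rfl p c (fun i => |w i|) (fun i => abs_nonneg _) Λ hΛ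
  have hfl : ∀ y ∈ LL c w Λ, flip w y ∈ LL c (fun i => |w i|) Λ := by
    intro y hy
    rw [mem_LL, SS_abs, flip_flip]
    exact hy
  have hfl' : ∀ y ∈ LL c (fun i => |w i|) Λ, flip w y ∈ LL c w Λ := by
    intro y hy
    rw [mem_LL, SS_abs] at hy
    exact hy
  have h2 : finrank ℝ (LL c w Λ) ≤ finrank ℝ (LL c (fun i => |w i|) Λ) := by
    let f : LL c w Λ →ₗ[ℝ] LL c (fun i => |w i|) Λ := (flip w).restrict hfl
    apply LinearMap.finrank_le_finrank_of_injective (f := f)
    intro y z h
    have h' : flip w y.1 = flip w z.1 := congrArg Subtype.val h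
    apply Subtype.ext
    rw [← flip_flip w y.1, h', flip_flip]
  have h3 : NL (LL c (fun i => |w i|) Λ) ≤ NL (LL c w Λ) := by
    unfold NL
    apply Finset.card_le_card_of_injOn (fun s i => ez w i * s i)
    · intro s hs
      rw [Finset.coe_filter] at hs ⊢
      obtain ⟨-, y, hy, hc⟩ := hs
      exact ⟨Finset.mem_univ _, flip w y, hfl' y hy, hc.flip w⟩
    · intro s _ s' _ h
      funext i
      have := congrFun h i
      simp only at this
      have h4 := congrArg (fun z => ez w i * z) this
      simp only [← mul_assoc, ez_mul_self, one_mul] at h4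
      exact h4
  calc 3 ^ finrank ℝ (LL c w Λ) ≤ 3 ^ finrank ℝ (LL c (fun i => |w i|) Λ) :=
        Nat.pow_le_pow_right (by norm_num) h2
    _ ≤ _ := h1
    _ ≤ _ := h3

/-- a functional on `ι → ℝ` -/
theorem dual_apply (ψ : Dual ℝ (ι → ℝ)) (y : ι → ℝ) :
    ψ y = ∑ i, ψ (Pi.single i 1) * y i := by
  have : y = ∑ i, y i • (Pi.single i (1 : ℝ) : ι → ℝ) := by
    funext k
    simp [Finset.sum_apply, Pi.single_apply]
  conv_lhs => rw [this]
  rw [map_sum]
  refine Finset.sum_congr rfl fun i _ => ?_
  rw [map_smul, smul_eq_mul, mul_comm]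

theorem main_gale (K : ℕ) (hB : Base K) (c : ι → Fin p) (w : ι → ℝ)
    (L : Submodule ℝ (ι → ℝ)) (hp : p + finrank ℝ L ≤ Fintype.card ι + K)
    (hG : ∀ β : ι → ℝ, (∀ y ∈ L, ∑ i, β i * y i = 0) →
      ∃ γ : Fin p → ℝ, ∀ i, β i = γ (c i) * w i) :
    3 ^ finrank ℝ L ≤ NL L := by
  set A : Submodule ℝ (Dual ℝ (ι → ℝ)) := L.dualAnnihilator with hA
  set Γ : Submodule ℝ (Dual ℝ (Fin p → ℝ)) := A.comap (SS c w).dualMap with hΓ
  set Λ : Submodule ℝ (Fin p → ℝ) := Γ.dualCoannihilator with hΛ
  have hrange : A ≤ LinearMap.range (SS c w).dualMap := by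
    intro ψ hψ
    rw [hA, Submodule.mem_dualAnnihilator] at hψ
    obtain ⟨γ, hγ⟩ := hG (fun i => ψ (Pi.single i 1)) (fun y hy => by
      rw [← dual_apply]; exact hψ y hy)
    refine ⟨∑ j, γ j • LinearMap.proj j, ?_⟩
    ext i
    simp only [LinearMap.coe_comp, LinearMap.coe_single, Function.comp_apply,
      LinearMap.dualMap_apply, LinearMap.coe_sum, Finset.sum_apply, LinearMap.smul_apply,
      LinearMap.proj_apply, smul_eq_mul]
    rw [hγ i]
    have h1 : ∀ j, SS c w (Pi.single i 1) j = if c i = j then w i else 0 := by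
      intro j
      rw [SS_apply, Finset.sum_eq_single i]
      · simp
      · intro b _ hb
        rw [Pi.single_eq_of_ne hb, mul_zero, ite_self]
      · intro h; exact absurd (Finset.mem_univ i) h
    simp only [h1]
    rw [Finset.sum_eq_single (c i)]
    · rw [if_pos rfl]
    · intro b _ hb
      rw [if_neg (fun h => hb h.symm), mul_zero]
    · intro h; exact absurd (Finset.mem_univ _) h
  have hL : L = LL c w Λ := by
    ext y
    rw [mem_LL, hΛ, Submodule.mem_dualCoannihilator]
    constructor
    · intro hy φ hφ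
      rw [hΓ, Submodule.mem_comap, hA, Submodule.mem_dualAnnihilator] at hφ
      exact hφ y hy
    · intro h
      have h2 : y ∈ A.dualCoannihilator := by
        rw [Submodule.mem_dualCoannihilator]
        intro ψ hψ
        obtain ⟨φ, rfl⟩ := hrange hψ
        exact h φ hψ
      rw [hA, Subspace.dualAnnihilator_dualCoannihilator_eq] at h2
      exact h2
  have hdim : finrank ℝ Λ ≤ K := by
    have h1 : finrank ℝ L + finrank ℝ A = Fintype.card ι := by
      have := Subspace.finrank_add_finrank_dualAnnihilator_eq (K := ℝ) L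
      rw [← hA, Module.finrank_fintype_fun_eq_card] at this
      exact this
    have h2 : finrank ℝ Γ + finrank ℝ Λ = p := by
      have := Subspace.finrank_add_finrank_dualCoannihilator_eq (K := ℝ) Γ
      rw [← hΛ, Module.finrank_fintype_fun_eq_card, Fintype.card_fin] at this
      exact this
    have h3 : finrank ℝ A ≤ finrank ℝ Γ := by
      have h4 : A = Γ.map (SS c w).dualMap := by
        rw [hΓ, Submodule.map_comap_eq_of_le hrange]
      rw [h4]
      exact Submodule.finrank_map_le _ _
    omega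
  have h := main_signed K hB c w Λ hdim
  rw [← hL] at h
  exact h

end

end Pool.Agent.GRD
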