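import Pool.Agent.GRD.Sys

/-!
# The induction over the classes
-/

set_option autoImplicit false

open scoped BigOperators Classical

namespace Pool.Agent.GRD

noncomputable section

variable {ι : Type} [Fintype ι] {p : ℕ}

open Module

/-- restriction of `LL` to the class `j` -/
def rho (c : ι → Fin p) (w : ι → ℝ) (Λ : Submodule ℝ (Fin p → ℝ)) (j : Fin p) :
    LL c w Λ →ₗ[ℝ] ({i // c i = j} → ℝ) where
  toFun y := fun i => y.1 i.1
  map_add' _ _ := rfl
  map_smul' _ _ := rfl

/-- the kernel of the restriction embeds in `L0` -/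
theorem ker_rho (c : ι → Fin p) (w : ι → ℝ) (Λ : Submodule ℝ (Fin p → ℝ)) (j : Fin p) :
    finrank ℝ (LinearMap.ker (rho c w Λ j)) ≤ finrank ℝ (L0 c w Λ j) := by
  have hmem : ∀ y : LinearMap.ker (rho c w Λ j),
      (fun i : {i // ¬ c i = j} => y.1.1 i.1) ∈ L0 c w Λ j := by
    rintro ⟨⟨y, hy⟩, hk⟩
    rw [mem_L0]
    rw [mem_LL_iff c w Λ j] at hy
    have h0 : ∑ i : {i // c i = j}, w i.1 * y i.1 = 0 := by
      refine Finset.sum_eq_zero fun i _ => ?_
      have : y i.1 = 0 := congrFun (LinearMap.mem_ker.1 hk) i
      rw [this, mul_zero]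
    rw [h0] at hy
    exact hy
  let f : LinearMap.ker (rho c w Λ j) →ₗ[ℝ] L0 c w Λ j :=
    { toFun := fun y => ⟨fun i => y.1.1 i.1, hmem y⟩
      map_add' := fun _ _ => rfl
      map_smul' := fun _ _ => rfl }
  apply LinearMap.finrank_le_finrank_of_injective (f := f)
  intro y z h
  apply Subtype.ext
  apply Subtype.ext
  funext i
  by_cases hi : c i = j
  · have h1 : y.1.1 i = 0 := congrFun (LinearMap.mem_ker.1 y.2) ⟨i, hi⟩
    have h2 : z.1.1 i = 0 := congrFun (LinearMap.mem_ker.1 z.2) ⟨i, hi⟩
    rw [h1, h2]
  · exact congrFun (congrArg Subtype.val h) ⟨i, hi⟩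

theorem dim_le (c : ι → Fin p) (w : ι → ℝ) (Λ : Submodule ℝ (Fin p → ℝ)) (j : Fin p) :
    finrank ℝ (LL c w Λ) ≤ finrank ℝ (L0 c w Λ j) + Fintype.card {i // c i = j} := by
  have h1 := LinearMap.finrank_range_add_finrank_ker (rho c w Λ j)
  have h2 := ker_rho c w Λ j
  have h3 : finrank ℝ (LinearMap.range (rho c w Λ j)) ≤ Fintype.card {i // c i = j} := by
    have := Submodule.finrank_le (LinearMap.range (rho c w Λ j))
    rwa [finrank_fintype_fun_eq_card] at this
  omega

theorem dim_le_co (c : ι → Fin p) (w : ι → ℝ) (Λ : Submodule ℝ (Fin p → ℝ)) (j : Fin p)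
    (hw : ∃ i, c i = j ∧ w i ≠ 0) (hco : ∀ q ∈ WW c w Λ j, q.2 = 0) :
    finrank ℝ (LL c w Λ) + 1 ≤ finrank ℝ (L0 c w Λ j) + Fintype.card {i // c i = j} := by
  have h1 := LinearMap.finrank_range_add_finrank_ker (rho c w Λ j)
  have h2 := ker_rho c w Λ j
  have h3 : finrank ℝ (LinearMap.range (rho c w Λ j)) < Fintype.card {i // c i = j} := by
    have hne : LinearMap.range (rho c w Λ j) ≠ ⊤ := by
      intro htop
      obtain ⟨i, hi, hwi⟩ := hw
      have hm : (Pi.single ⟨i, hi⟩ 1 : {i // c i = j} → ℝ) ∈ LinearMap.range (rho c w Λ j) := by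
        rw [htop]; trivial
      obtain ⟨⟨y, hy⟩, hy'⟩ := hm
      rw [mem_LL_iff c w Λ j] at hy
      have h4 := hco _ hy
      have h5 : ∀ k : {i // c i = j}, y k.1 = (Pi.single ⟨i, hi⟩ 1 : {i // c i = j} → ℝ) k :=
        fun k => congrFun hy' k
      have h6 : ∑ k : {i // c i = j}, w k.1 * y k.1 = w i := by
        rw [Finset.sum_eq_single (⟨i, hi⟩ : {i // c i = j})]
        · rw [h5, Pi.single_eq_same, mul_one]
        · intro k _ hk
          rw [h5, Pi.single_eq_of_ne hk, mul_zero]
        · intro h; exact absurd (Finset.mem_univ _) h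
      exact hwi (h6.symm.trans h4)
    have := Submodule.finrank_lt hne
    rwa [finrank_fintype_fun_eq_card] at this
  omega

theorem dim_L1 (c : ι → Fin p) (w : ι → ℝ) (Λ : Submodule ℝ (Fin p → ℝ)) (j : Fin p) {M : ℝ}
    (hM : 0 < M) (hq : ∃ q ∈ WW c w Λ j, q.2 ≠ 0) :
    finrank ℝ (L0 c w Λ j) + 1 ≤ finrank ℝ (L1 c w Λ j M) := by
  let ψ : L1 c w Λ j M →ₗ[ℝ] ℝ :=
    { toFun := fun y => y.1 none
      map_add' := fun _ _ => rfl
      map_smul' := fun _ _ => rfl }
  have h1 := LinearMap.finrank_range_add_finrank_ker ψ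
  have h2 : 1 ≤ finrank ℝ (LinearMap.range ψ) := by
    rw [Submodule.one_le_finrank_iff]
    obtain ⟨⟨q, t⟩, hq, ht⟩ := hq
    have hMt : M * (t / M) = t := by field_simp
    have hmem : (fun i : Option {i // ¬ c i = j} => i.elim (t / M) q) ∈ L1 c w Λ j M := by
      rw [mem_L1]
      simp only [Option.elim_some, Option.elim_none]
      rw [hMt]; exact hq
    intro hbot
    have h3 : ψ ⟨_, hmem⟩ ∈ LinearMap.range ψ := LinearMap.mem_range_self ψ _
    rw [hbot, Submodule.mem_bot] at h3
    have h4 : t / M = 0 := h3
    rw [div_eq_zero_iff] at h4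
    rcases h4 with h4 | h4
    · exact ht h4
    · exact hM.ne' h4
  have h3 : finrank ℝ (L0 c w Λ j) ≤ finrank ℝ (LinearMap.ker ψ) := by
    have hmem : ∀ y : L0 c w Λ j,
        (fun i : Option {i // ¬ c i = j} => i.elim (0 : ℝ) y.1) ∈ L1 c w Λ j M := by
      intro y
      rw [mem_L1]
      simp only [Option.elim_some, Option.elim_none, mul_zero]
      exact (mem_L0 c w Λ j y.1).1 y.2
    let f : L0 c w Λ j →ₗ[ℝ] LinearMap.ker ψ :=
      { toFun := fun y => ⟨⟨_, hmem y⟩, rfl⟩
        map_add' := by
          intro y z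
          apply Subtype.ext
          apply Subtype.ext
          funext i
          cases i with
          | none => simp
          | some i => rfl
        map_smul' := by
          intro r y
          apply Subtype.ext
          apply Subtype.ext
          funext i
          cases i with
          | none => simp
          | some i => rfl }
    apply LinearMap.finrank_le_finrank_of_injective (f := f)
    intro y z h
    apply Subtype.ext
    funext i
    have h4 := congrArg Subtype.val (congrArg Subtype.val h)
    exact congrFun h4 (some i)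
  omega

/-- Kalai's inequality for all subspaces of dimension at most `K` -/
def Base (K : ℕ) : Prop :=
  ∀ (ι : Type) [Fintype ι] (L : Submodule ℝ (ι → ℝ)), finrank ℝ L ≤ K → 3 ^ finrank ℝ L ≤ NL L

theorem card_fun (κ : Type) [Fintype κ] : Fintype.card (κ → ZMod 3) = 3 ^ Fintype.card κ := by
  rw [Fintype.card_fun, ZMod.card]

theorem main_ind (K : ℕ) (hB : Base K) : ∀ (n : ℕ) (ι : Type) [Fintype ι], Fintype.card ι = n →
    ∀ (p : ℕ) (c : ι → Fin p) (w : ι → ℝ), (∀ i, 0 ≤ w i) → ∀ Λ : Submodule ℝ (Fin p → ℝ),
      finrank ℝ Λ ≤ K → 3 ^ finrank ℝ (LL c w Λ) ≤ NL (LL c w Λ) := by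
  intro n
  induction n using Nat.strong_induction_on with
  | _ n ih =>
    intro ι _ hn p c w hw Λ hΛ
    by_cases hex : ∃ j, (∃ i, c i = j) ∧ ((∀ i, c i = j → w i = 0) ∨
        2 ≤ Fintype.card {i // c i = j})
    · obtain ⟨j, hne, hj⟩ := hex
      have hcard : Fintype.card {i // c i = j} + Fintype.card {i // ¬ c i = j} = n := by
        rw [← hn]
        have h1 := Fintype.card_subtype_compl (fun i => c i = j)
        have h2 := Fintype.card_subtype_le (fun i => c i = j)
        omega
      have hpos : 0 < Fintype.card {i // c i = j} := by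
        obtain ⟨i, hi⟩ := hne
        exact Fintype.card_pos_iff.2 ⟨⟨i, hi⟩⟩
      -- the smaller system
      have ih0 : 3 ^ finrank ℝ (L0 c w Λ j) ≤ Phi (WW c w Λ j) {0} := by
        rw [← NL_L0]
        exact ih (Fintype.card {i // ¬ c i = j}) (by omega) _ rfl p _ _ (fun i => hw i.1) Λ hΛ
      have hsplit := split (fun i => c i = j) (LL c w Λ) (WW c w Λ j) (fun i => w i.1)
        (fun i => hw i.1) (mem_LL_iff c w Λ j)
      by_cases hall : ∀ i, c i = j → w i = 0
      · -- all weights vanish
        have hms : ∀ (k : ZMod 3) (u : {i // c i = j} → ZMod 3),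
            ms (fun i : {i // c i = j} => w i.1) k u = 0 := by
          intro k u
          unfold ms
          refine Finset.sum_eq_zero fun i _ => ?_
          show (if u i = k then w i.1 else 0) = 0
          rw [hall i.1 i.2]; simp
        have hsum : NL (LL c w Λ) =
            3 ^ Fintype.card {i // c i = j} * Phi (WW c w Λ j) {0} := by
          rw [hsplit]
          simp only [hms, Jset_zero, sub_self]
          rw [Finset.sum_const, Finset.card_univ, smul_eq_mul]
          congr 1
          rw [Fintype.card_fun, ZMod.card]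
        rw [hsum]
        have h1 := dim_le c w Λ j
        calc 3 ^ finrank ℝ (LL c w Λ)
            ≤ 3 ^ (finrank ℝ (L0 c w Λ j) + Fintype.card {i // c i = j}) :=
              Nat.pow_le_pow_right (by norm_num) h1
          _ = 3 ^ Fintype.card {i // c i = j} * 3 ^ finrank ℝ (L0 c w Λ j) := by
              rw [pow_add, mul_comm]
          _ ≤ _ := Nat.mul_le_mul_left _ ih0
      · have h2 : 2 ≤ Fintype.card {i // c i = j} := hj.resolve_left hall
        push_neg at hall
        have h6 : 6 * NL (LL c w Λ) = ∑ u : {i // c i = j} → ZMod 3,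
            six (fun x y z => Phi (WW c w Λ j) (Jset x y z))
              (ms (fun i : {i // c i = j} => w i.1) 0 u)
              (ms (fun i : {i // c i = j} => w i.1) 1 u)
              (ms (fun i : {i // c i = j} => w i.1) 2 u) := by
          rw [hsplit]
          have h5 := sum_six (fun i : {i // c i = j} => w i.1)
            (fun x y z => Phi (WW c w Λ j) (Jset x y z))
          rw [sum_re (Equiv.refl _)] at h5
          exact h5.trans (sum_re (Equiv.refl _) _)
        have hnn : ∀ (k : ZMod 3) (u : {i // c i = j} → ZMod 3),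
            0 ≤ ms (fun i : {i // c i = j} => w i.1) k u :=
          fun k u => ms_nonneg (fun i => hw i.1) k u
        have hcu : (Finset.univ : Finset ({i // c i = j} → ZMod 3)).card =
            3 ^ Fintype.card {i // c i = j} := by
          rw [Finset.card_univ, Fintype.card_fun, ZMod.card]
        by_cases hq : ∃ q ∈ WW c w Λ j, q.2 ≠ 0
        · -- the general case
          have hG : ∀ M : ℝ, 0 < M → 3 * 3 ^ finrank ℝ (L0 c w Λ j) ≤ GW (WW c w Λ j) M := by
            intro M hM
            rw [← NL_L1 c w Λ j hM]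
            have h7 := ih (Fintype.card (Option {i // ¬ c i = j}))
              (by rw [Fintype.card_option]; omega) _ rfl p
              (fun i : Option {i // ¬ c i = j} => i.elim j fun i => c i.1)
              (fun i => i.elim M fun i => w i.1) (by
                intro i
                cases i with
                | none => exact hM.le
                | some i => exact hw i.1) Λ hΛ
            have h8 := dim_L1 c w Λ j hM hq
            calc 3 * 3 ^ finrank ℝ (L0 c w Λ j) = 3 ^ (finrank ℝ (L0 c w Λ j) + 1) := by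
                  rw [pow_succ, mul_comm]
              _ ≤ 3 ^ finrank ℝ (L1 c w Λ j M) := Nat.pow_le_pow_right (by norm_num) h8
              _ ≤ _ := h7
          have h9 : 3 ^ Fintype.card {i // c i = j} * (6 * 3 ^ finrank ℝ (L0 c w Λ j)) ≤
              6 * NL (LL c w Λ) := by
            rw [h6, ← hcu, ← smul_eq_mul]
            refine Finset.card_nsmul_le_sum _ _ _ fun u _ => ?_
            exact star (WW c w Λ j) hq _ ih0 hG (hnn 0 u) (hnn 1 u) (hnn 2 u)
          have h1 := dim_le c w Λ j
          have h10 : 3 ^ finrank ℝ (LL c w Λ) ≤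
              3 ^ Fintype.card {i // c i = j} * 3 ^ finrank ℝ (L0 c w Λ j) := by
            rw [← pow_add]
            exact Nat.pow_le_pow_right (by norm_num) (by omega)
          have h11 : 3 ^ Fintype.card {i // c i = j} * (6 * 3 ^ finrank ℝ (L0 c w Λ j)) =
              6 * (3 ^ Fintype.card {i // c i = j} * 3 ^ finrank ℝ (L0 c w Λ j)) := by ring
          omega
        · push_neg at hq
          have h9 : 3 ^ Fintype.card {i // c i = j} * (2 * Phi (WW c w Λ j) {0}) ≤
              6 * NL (LL c w Λ) := by
            rw [h6, ← hcu, ← smul_eq_mul]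
            refine Finset.card_nsmul_le_sum _ _ _ fun u _ => ?_
            exact star_co (WW c w Λ j) (hnn 0 u) (hnn 1 u) (hnn 2 u)
          have h1 := dim_le_co c w Λ j hall hq
          have h10 : 3 * 3 ^ finrank ℝ (LL c w Λ) ≤
              3 ^ Fintype.card {i // c i = j} * 3 ^ finrank ℝ (L0 c w Λ j) := by
            rw [← pow_add, mul_comm, ← pow_succ]
            exact Nat.pow_le_pow_right (by norm_num) (by omega)
          have h11 : 3 ^ Fintype.card {i // c i = j} * 3 ^ finrank ℝ (L0 c w Λ j) ≤
              3 ^ Fintype.card {i // c i = j} * Phi (WW c w Λ j) {0} :=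
            Nat.mul_le_mul_left _ ih0
          have h12 : 3 ^ Fintype.card {i // c i = j} * (2 * Phi (WW c w Λ j) {0}) =
              2 * (3 ^ Fintype.card {i // c i = j} * Phi (WW c w Λ j) {0}) := by ring
          omega
    · -- every class has at most one vote, with positive weight
      push_neg at hex
      have hinj : Function.Injective c := by
        intro a b hab
        by_contra hne
        have h1 := (hex (c a) ⟨a, rfl⟩).2
        have h2 : 2 ≤ Fintype.card {i // c i = c a} := by
          rw [← Nat.succ_le_iff.symm.trans Iff.rfl]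
          exact Fintype.one_lt_card_iff.2 ⟨⟨a, rfl⟩, ⟨b, hab.symm⟩, fun h => hne (congrArg Subtype.val h)⟩
        omega
      have hwne : ∀ i, w i ≠ 0 := by
        intro i
        obtain ⟨k, hk, hwk⟩ := (hex (c i) ⟨i, rfl⟩).1
        rwa [hinj hk] at hwk
      apply hB
      refine le_trans ?_ hΛ
      let f : LL c w Λ →ₗ[ℝ] Λ :=
        ((SS c w).comp (LL c w Λ).subtype).codRestrict Λ (fun y => y.2)
      apply LinearMap.finrank_le_finrank_of_injective (f := f)
      intro y z h
      apply Subtype.ext
      funext i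
      have h1 : SS c w y.1 (c i) = SS c w z.1 (c i) := congrFun (congrArg Subtype.val h) (c i)
      have h2 : ∀ x : ι → ℝ, SS c w x (c i) = w i * x i := by
        intro x
        rw [SS_apply, Finset.sum_eq_single i]
        · rw [if_pos rfl]
        · intro k _ hk
          rw [if_neg (fun h => hk (hinj h))]
        · intro h; exact absurd (Finset.mem_univ _) h
      rw [h2, h2] at h1
      exact mul_left_cancel₀ (hwne i) h1

end

end Pool.Agent.GRD
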