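import Pool.Agent.GRD.Geom

/-!
# The induction over the classes, reduced to the injective case
-/

set_option autoImplicit false

open scoped BigOperators Classical

namespace Pool.Agent.GRD

noncomputable section

variable {ι : Type} [Fintype ι] {p : ℕ}

open Module

theorem ind_inj (Λ : Submodule ℝ (Fin p → ℝ))
    (hI : ∀ (ι : Type) [Fintype ι] (c : ι → Fin p) (w : ι → ℝ), Function.Injective c →
      (∀ i, 0 < w i) → 3 ^ finrank ℝ (LL c w Λ) ≤ NL (LL c w Λ)) :
    ∀ (n : ℕ) (ι : Type) [Fintype ι], Fintype.card ι = n →
    ∀ (c : ι → Fin p) (w : ι → ℝ), (∀ i, 0 ≤ w i) →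
      3 ^ finrank ℝ (LL c w Λ) ≤ NL (LL c w Λ) := by
  intro n
  induction n using Nat.strong_induction_on with
  | _ n ih =>
    intro ι _ hn c w hw
    by_cases hex : ∃ j, (∃ i, c i = j) ∧ ((∀ i, c i = j → w i = 0) ∨
        2 ≤ Fintype.card {i // c i = j})
    · obtain ⟨j, hne, hj⟩ := hex
      have hcard : Fintype.card {i // c i = j} + Fintype.card {i // ¬ c i = j} = n := by
        rw [← hn]
        have h1 := Fintype.card_subtype_compl (fun i => c i = j)
        have h2 := Fintype.card_subtype_le (fun i => c i = j)
        omega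
      have hpos : 0 < Fintype.card {i // c i = j} := by
        obtain ⟨i, hi⟩ := hne
        exact Fintype.card_pos_iff.2 ⟨⟨i, hi⟩⟩
      -- the smaller system
      have ih0 : 3 ^ finrank ℝ (L0 c w Λ j) ≤ Phi (WW c w Λ j) {0} := by
        rw [← NL_L0]
        exact ih (Fintype.card {i // ¬ c i = j}) (by omega) _ rfl _ _ (fun i => hw i.1)
      have hsplit := split (fun i => c i = j) (LL c w Λ) (WW c w Λ j) (fun i => w i.1)
        (fun i => hw i.1) (mem_LL_iff c w Λ j)
      by_cases hall : ∀ i, c i = j → w i = 0
      · -- all weights vanish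
        have hms : ∀ (k : ZMod 3) (u : {i // c i = j} → ZMod 3),
            ms (fun i : {i // c i = j} => w i.1) k u = 0 := by
          intro k u
          unfold ms
          refine Finset.sum_eq_zero fun i _ => ?_
          show (if u i = k then w i.1 else 0) = 0
          rw [hall i.1 i.2]; simp
        have hsum : NL (LL c w Λ) =
            3 ^ Fintype.card {i // c i = j} * Phi (WW c w Λ j) {0} := by
          rw [hsplit]
          simp only [hms, Jset_zero, sub_self]
          rw [Finset.sum_const, Finset.card_univ, smul_eq_mul]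
          congr 1
          rw [Fintype.card_fun, ZMod.card]
        rw [hsum]
        have h1 := dim_le c w Λ j
        calc 3 ^ finrank ℝ (LL c w Λ)
            ≤ 3 ^ (finrank ℝ (L0 c w Λ j) + Fintype.card {i // c i = j}) :=
              Nat.pow_le_pow_right (by norm_num) h1
          _ = 3 ^ Fintype.card {i // c i = j} * 3 ^ finrank ℝ (L0 c w Λ j) := by
              rw [pow_add, mul_comm]
          _ ≤ _ := Nat.mul_le_mul_left _ ih0
      · have h2 : 2 ≤ Fintype.card {i // c i = j} := hj.resolve_left hall
        push Not at hall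
        have h6 : 6 * NL (LL c w Λ) = ∑ u : {i // c i = j} → ZMod 3,
            six (fun x y z => Phi (WW c w Λ j) (Jset x y z))
              (ms (fun i : {i // c i = j} => w i.1) 0 u)
              (ms (fun i : {i // c i = j} => w i.1) 1 u)
              (ms (fun i : {i // c i = j} => w i.1) 2 u) := by
          rw [hsplit]
          have h5 := sum_six (fun i : {i // c i = j} => w i.1)
            (fun x y z => Phi (WW c w Λ j) (Jset x y z))
          rw [sum_re (Equiv.refl _)] at h5
          exact h5.trans (sum_re (Equiv.refl _) _)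
        have hnn : ∀ (k : ZMod 3) (u : {i // c i = j} → ZMod 3),
            0 ≤ ms (fun i : {i // c i = j} => w i.1) k u :=
          fun k u => ms_nonneg (fun i => hw i.1) k u
        have hcu : (Finset.univ : Finset ({i // c i = j} → ZMod 3)).card =
            3 ^ Fintype.card {i // c i = j} := by
          rw [Finset.card_univ, Fintype.card_fun, ZMod.card]
        by_cases hq : ∃ q ∈ WW c w Λ j, q.2 ≠ 0
        · -- the general case
          have hG : ∀ M : ℝ, 0 < M → 3 * 3 ^ finrank ℝ (L0 c w Λ j) ≤ GW (WW c w Λ j) M := by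
            intro M hM
            rw [← NL_L1 c w Λ j hM]
            have h7 := ih (Fintype.card (Option {i // ¬ c i = j}))
              (by rw [Fintype.card_option]; omega) _ rfl
              (fun i : Option {i // ¬ c i = j} => i.elim j fun i => c i.1)
              (fun i => i.elim M fun i => w i.1) (by
                intro i
                cases i with
                | none => exact hM.le
                | some i => exact hw i.1)
            have h8 := dim_L1 c w Λ j hM hq
            calc 3 * 3 ^ finrank ℝ (L0 c w Λ j) = 3 ^ (finrank ℝ (L0 c w Λ j) + 1) := by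
                  rw [pow_succ, mul_comm]
              _ ≤ 3 ^ finrank ℝ (L1 c w Λ j M) := Nat.pow_le_pow_right (by norm_num) h8
              _ ≤ _ := h7
          have h9 : 3 ^ Fintype.card {i // c i = j} * (6 * 3 ^ finrank ℝ (L0 c w Λ j)) ≤
              6 * NL (LL c w Λ) := by
            rw [h6, ← hcu, ← smul_eq_mul]
            refine Finset.card_nsmul_le_sum _ _ _ fun u _ => ?_
            exact star (WW c w Λ j) hq _ ih0 hG (hnn 0 u) (hnn 1 u) (hnn 2 u)
          have h1 := dim_le c w Λ j
          have h10 : 3 ^ finrank ℝ (LL c w Λ) ≤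
              3 ^ Fintype.card {i // c i = j} * 3 ^ finrank ℝ (L0 c w Λ j) := by
            rw [← pow_add]
            exact Nat.pow_le_pow_right (by norm_num) (by omega)
          have h11 : 3 ^ Fintype.card {i // c i = j} * (6 * 3 ^ finrank ℝ (L0 c w Λ j)) =
              6 * (3 ^ Fintype.card {i // c i = j} * 3 ^ finrank ℝ (L0 c w Λ j)) := by ring
          omega
        · push Not at hq
          have h9 : 3 ^ Fintype.card {i // c i = j} * (2 * Phi (WW c w Λ j) {0}) ≤
              6 * NL (LL c w Λ) := by
            rw [h6, ← hcu, ← smul_eq_mul]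
            refine Finset.card_nsmul_le_sum _ _ _ fun u _ => ?_
            exact star_co (WW c w Λ j) (hnn 0 u) (hnn 1 u) (hnn 2 u)
          have h1 := dim_le_co c w Λ j hall hq
          have h10 : 3 * 3 ^ finrank ℝ (LL c w Λ) ≤
              3 ^ Fintype.card {i // c i = j} * 3 ^ finrank ℝ (L0 c w Λ j) := by
            rw [← pow_add, mul_comm, ← pow_succ]
            exact Nat.pow_le_pow_right (by norm_num) (by omega)
          have h11 : 3 ^ Fintype.card {i // c i = j} * 3 ^ finrank ℝ (L0 c w Λ j) ≤
              3 ^ Fintype.card {i // c i = j} * Phi (WW c w Λ j) {0} :=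
            Nat.mul_le_mul_left _ ih0
          have h12 : 3 ^ Fintype.card {i // c i = j} * (2 * Phi (WW c w Λ j) {0}) =
              2 * (3 ^ Fintype.card {i // c i = j} * Phi (WW c w Λ j) {0}) := by ring
          omega
    · -- every class has at most one vote, with positive weight
      push Not at hex
      have hinj : Function.Injective c := by
        intro a b hab
        by_contra hne
        have h1 := (hex (c a) ⟨a, rfl⟩).2
        have h2 : 2 ≤ Fintype.card {i // c i = c a} := by
          rw [← Nat.succ_le_iff.symm.trans Iff.rfl]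
          exact Fintype.one_lt_card_iff.2 ⟨⟨a, rfl⟩, ⟨b, hab.symm⟩, fun h => hne (congrArg Subtype.val h)⟩
        omega
      have hwne : ∀ i, w i ≠ 0 := by
        intro i
        obtain ⟨k, hk, hwk⟩ := (hex (c i) ⟨i, rfl⟩).1
        rwa [hinj hk] at hwk
      exact hI ι c w hinj fun i => lt_of_le_of_ne (hw i) (hwne i).symm

/-- the signed version -/
theorem signed_inj (Λ : Submodule ℝ (Fin p → ℝ))
    (hI : ∀ (ι : Type) [Fintype ι] (c : ι → Fin p) (w : ι → ℝ), Function.Injective c →
      (∀ i, 0 < w i) → 3 ^ finrank ℝ (LL c w Λ) ≤ NL (LL c w Λ))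
    (c : ι → Fin p) (w : ι → ℝ) :
    3 ^ finrank ℝ (LL c w Λ) ≤ NL (LL c w Λ) := by
  have h1 := ind_inj Λ hI (Fintype.card ι) ι rfl c (fun i => |w i|) (fun i => abs_nonneg _)
  have hfl : ∀ y ∈ LL c w Λ, flip w y ∈ LL c (fun i => |w i|) Λ := by
    intro y hy
    rw [mem_LL, SS_abs, flip_flip]
    exact hy
  have hfl' : ∀ y ∈ LL c (fun i => |w i|) Λ, flip w y ∈ LL c w Λ := by
    intro y hy
    rw [mem_LL, SS_abs] at hy
    exact hy
  have h2 : finrank ℝ (LL c w Λ) ≤ finrank ℝ (LL c (fun i => |w i|) Λ) := by
    let f : LL c w Λ →ₗ[ℝ] LL c (fun i => |w i|) Λ := (flip w).restrict hfl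
    apply LinearMap.finrank_le_finrank_of_injective (f := f)
    intro y z h
    have h' : flip w y.1 = flip w z.1 := congrArg Subtype.val h
    apply Subtype.ext
    rw [← flip_flip w y.1, h', flip_flip]
  have h3 : NL (LL c (fun i => |w i|) Λ) ≤ NL (LL c w Λ) := by
    unfold NL
    apply Finset.card_le_card_of_injOn (fun s i => ez w i * s i)
    · intro s hs
      rw [Finset.coe_filter] at hs ⊢
      obtain ⟨-, y, hy, hc⟩ := hs
      exact ⟨Finset.mem_univ _, flip w y, hfl' y hy, hc.flip w⟩
    · intro s _ s' _ h
      funext i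
      have := congrFun h i
      simp only at this
      have h4 := congrArg (fun z => ez w i * z) this
      simp only [← mul_assoc, ez_mul_self, one_mul] at h4
      exact h4
  calc 3 ^ finrank ℝ (LL c w Λ) ≤ 3 ^ finrank ℝ (LL c (fun i => |w i|) Λ) :=
        Nat.pow_le_pow_right (by norm_num) h2
    _ ≤ _ := h1
    _ ≤ _ := h3

end

end Pool.Agent.GRD
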