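import Pool.Agent.GRD.Star

/-!
# Splitting off one class of parallel Gale vectors
-/

set_option autoImplicit false

open scoped BigOperators Classical

namespace Pool.Agent.GRD

noncomputable section

/-- mass of the colour `k` -/
def ms {κ : Type} [Fintype κ] (w : κ → ℝ) (k : ZMod 3) (u : κ → ZMod 3) : ℝ :=
  ∑ i, if u i = k then w i else 0

theorem ms_nonneg {κ : Type} [Fintype κ] {w : κ → ℝ} (hw : ∀ i, 0 ≤ w i) (k : ZMod 3)
    (u : κ → ZMod 3) : 0 ≤ ms w k u :=
  Finset.sum_nonneg fun i _ => by split_ifs; exacts [hw i, le_rfl]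

theorem sum_val {κ : Type} [Fintype κ] {w : κ → ℝ} {u : κ → ZMod 3} {y : κ → ℝ}
    (h : Cell u y) : ∑ i, w i * y i =
      ms w 1 u - ms w 2 u + ∑ i, if u i = 0 then w i * y i else 0 := by
  unfold ms
  rw [← Finset.sum_sub_distrib, ← Finset.sum_add_distrib]
  refine Finset.sum_congr rfl fun i _ => ?_
  have h01 : (0 : ZMod 3) ≠ 1 := by decide
  have h02 : (0 : ZMod 3) ≠ 2 := by decide
  have h12 : (1 : ZMod 3) ≠ 2 := by decide
  rcases zmod3_cases (u i) with h0 | h0 | h0
  · rw [h0]; simp [h01, h02]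
  · have h1 : u i ≠ 0 := by rw [h0]; exact h01.symm
    rw [(h i).2 h1, h0, sg_one]
    simp [h12]
  · have h1 : u i ≠ 0 := by rw [h0]; exact h02.symm
    rw [(h i).2 h1, h0, sg_two]
    simp [h02.symm, h12.symm]

theorem heights {κ : Type} [Fintype κ] {w : κ → ℝ} (hw : ∀ i, 0 ≤ w i) (u : κ → ZMod 3)
    (t : ℝ) : (∃ y, Cell u y ∧ ∑ i, w i * y i = t) ↔
      t ∈ Jset (ms w 1 u) (ms w 2 u) (ms w 0 u) := by
  have hz := ms_nonneg hw 0 u
  constructor
  · rintro ⟨y, hc, rfl⟩
    rw [sum_val hc]
    rcases hz.lt_or_eq with hz' | hz'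
    · rw [Jset_pos hz']
      -- some free vote has positive weight
      obtain ⟨i0, -, hi0⟩ : ∃ i ∈ Finset.univ, 0 < (if u i = 0 then w i else 0) := by
        by_contra hcon
        push_neg at hcon
        have := Finset.sum_nonpos hcon
        unfold ms at hz'
        linarith
      have hu0 : u i0 = 0 := by
        by_contra h; rw [if_neg h] at hi0; exact lt_irrefl _ hi0
      rw [if_pos hu0] at hi0
      have h1 : ∑ i, (if u i = 0 then w i * y i else 0) < ms w 0 u := by
        unfold ms
        refine Finset.sum_lt_sum (fun i _ => ?_) ⟨i0, Finset.mem_univ _, ?_⟩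
        · split_ifs with h
          · have := (abs_lt.1 ((hc i).1 h)).2
            nlinarith [hw i]
          · exact le_rfl
        · rw [if_pos hu0, if_pos hu0]
          have := (abs_lt.1 ((hc i0).1 hu0)).2
          nlinarith
      have h2 : -ms w 0 u < ∑ i, (if u i = 0 then w i * y i else 0) := by
        unfold ms
        rw [← Finset.sum_neg_distrib]
        refine Finset.sum_lt_sum (fun i _ => ?_) ⟨i0, Finset.mem_univ _, ?_⟩
        · split_ifs with h
          · have := (abs_lt.1 ((hc i).1 h)).1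
            nlinarith [hw i]
          · simp
        · rw [if_pos hu0, if_pos hu0]
          have := (abs_lt.1 ((hc i0).1 hu0)).1
          nlinarith
      constructor <;> linarith
    · rw [← hz', Jset_zero, Set.mem_singleton_iff]
      have h0 : ∀ i, (if u i = 0 then w i * y i else 0) = 0 := by
        intro i
        have h1 : (if u i = 0 then w i else 0) = 0 := by
          have := (Finset.sum_eq_zero_iff_of_nonneg (f := fun i => if u i = 0 then w i else 0)
            (fun i _ => by show 0 ≤ (if u i = 0 then w i else 0); split_ifs; exacts [hw i, le_rfl])).1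
            (by unfold ms at hz'; exact hz'.symm) i (Finset.mem_univ i)
          exact this
        split_ifs with h
        · rw [if_pos h] at h1
          rw [h1, zero_mul]
        · rfl
      rw [Finset.sum_congr rfl fun i _ => h0 i]
      simp
  · intro ht
    have hex : ∃ τ : ℝ, |τ| < 1 ∧ t = ms w 1 u - ms w 2 u + τ * ms w 0 u := by
      rcases hz.lt_or_eq with hz' | hz'
      · rw [Jset_pos hz'] at ht
        refine ⟨(t - (ms w 1 u - ms w 2 u)) / ms w 0 u, ?_, by field_simp; ring⟩
        rw [abs_div, abs_of_pos hz', div_lt_one hz', abs_lt]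
        constructor <;> linarith [ht.1, ht.2]
      · rw [← hz', Jset_zero, Set.mem_singleton_iff] at ht
        exact ⟨0, by simp, by rw [ht]; ring⟩
    obtain ⟨τ, hτ, ht'⟩ := hex
    have hc : Cell u (fun i => if u i = 0 then τ else sg (u i)) := by
      intro i
      constructor
      · intro h; simp only [h, if_true]; exact hτ
      · intro h; simp only [h, if_false]
    refine ⟨_, hc, ?_⟩
    rw [sum_val hc, ht']
    congr 1
    unfold ms
    rw [Finset.mul_sum]
    refine Finset.sum_congr rfl fun i _ => ?_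
    split_ifs with h
    · ring
    · ring

/-- the sum over all colourings, symmetrised -/
theorem sum_six {κ : Type} [Fintype κ] (w : κ → ℝ) (F : ℝ → ℝ → ℝ → ℕ) :
    6 * ∑ u : κ → ZMod 3, F (ms w 1 u) (ms w 2 u) (ms w 0 u) =
      ∑ u : κ → ZMod 3, six F (ms w 0 u) (ms w 1 u) (ms w 2 u) := by
  have hrot : ∀ (k : ZMod 3) (u : κ → ZMod 3), ms w k (u + 1) = ms w (k - 1) u := by
    intro k u
    unfold ms
    refine Finset.sum_congr rfl fun i _ => ?_
    have : (u + 1) i = k ↔ u i = k - 1 := by
      rw [Pi.add_apply, Pi.one_apply]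
      exact eq_sub_iff_add_eq.symm
    simp only [this]
  have hneg : ∀ (k : ZMod 3) (u : κ → ZMod 3), ms w k (-u) = ms w (-k) u := by
    intro k u
    unfold ms
    refine Finset.sum_congr rfl fun i _ => ?_
    have : (-u) i = k ↔ u i = -k := by
      rw [Pi.neg_apply]
      exact neg_eq_iff_eq_neg
    simp only [this]
  have r : ∀ a b c : ZMod 3, ∑ u : κ → ZMod 3, F (ms w a u) (ms w b u) (ms w c u) =
      ∑ u : κ → ZMod 3, F (ms w (a - 1) u) (ms w (b - 1) u) (ms w (c - 1) u) := by
    intro a b c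
    rw [← Equiv.sum_comp (Equiv.addRight (1 : κ → ZMod 3))]
    refine Finset.sum_congr rfl fun u _ => ?_
    simp only [Equiv.coe_addRight, hrot]
  have n : ∀ a b c : ZMod 3, ∑ u : κ → ZMod 3, F (ms w a u) (ms w b u) (ms w c u) =
      ∑ u : κ → ZMod 3, F (ms w (-a) u) (ms w (-b) u) (ms w (-c) u) := by
    intro a b c
    rw [← Equiv.sum_comp (Equiv.neg (κ → ZMod 3))]
    refine Finset.sum_congr rfl fun u _ => ?_
    simp only [Equiv.neg_apply, hneg]
  have d1 : (1 : ZMod 3) - 1 = 0 := by decide
  have d2 : (2 : ZMod 3) - 1 = 1 := by decide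
  have d0 : (0 : ZMod 3) - 1 = 2 := by decide
  have m1 : -(1 : ZMod 3) = 2 := by decide
  have m2 : -(2 : ZMod 3) = 1 := by decide
  have m0 : -(0 : ZMod 3) = 0 := by decide
  have e1 := r 1 2 0
  have e2 := r 0 1 2
  have e3 := n 1 2 0
  have e4 := n 0 1 2
  have e5 := n 2 0 1
  rw [d1, d2, d0] at e1
  rw [d1, d2, d0] at e2
  rw [m1, m2, m0] at e3 e4 e5
  unfold six
  simp only [Finset.sum_add_distrib]
  omega

variable {ι : Type} [Fintype ι]

/-- splitting the count along a class of indices -/
theorem split (p : ι → Prop) [DecidablePred p] (L : Submodule ℝ (ι → ℝ))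
    (W : Submodule ℝ (({i // ¬ p i} → ℝ) × ℝ)) (w : {i // p i} → ℝ) (hw : ∀ i, 0 ≤ w i)
    (hL : ∀ y, y ∈ L ↔ ((fun i : {i // ¬ p i} => y i.1), ∑ i : {i // p i}, w i * y i.1) ∈ W) :
    NL L = ∑ u : {i // p i} → ZMod 3, Phi W (Jset (ms w 1 u) (ms w 2 u) (ms w 0 u)) := by
  unfold NL Phi
  simp only [Finset.card_filter]
  rw [← Equiv.sum_comp (Equiv.piEquivPiSubtypeProd p (fun _ => ZMod 3)).symm,
    Fintype.sum_prod_type]
  refine Finset.sum_congr (by ext; simp) fun u _ => Finset.sum_congr (by ext; simp) fun s _ => ?_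
  have hiff : (∃ y ∈ L, Cell ((Equiv.piEquivPiSubtypeProd p (fun _ => ZMod 3)).symm (u, s)) y) ↔
      (Ks W s ∩ Jset (ms w 1 u) (ms w 2 u) (ms w 0 u)).Nonempty := by
    constructor
    · rintro ⟨y, hyL, hc⟩
      rw [hL] at hyL
      refine ⟨_, ⟨_, hyL, ?_⟩, (heights hw u _).1 ⟨fun i => y i.1, ?_, rfl⟩⟩
      · intro i
        have := hc i.1
        simp only [Equiv.piEquivPiSubtypeProd_symm_apply, dif_neg i.2] at this
        exact this
      · intro i
        have := hc i.1
        simp only [Equiv.piEquivPiSubtypeProd_symm_apply, dif_pos i.2] at this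
        exact this
    · rintro ⟨t, ⟨y', hy', hc'⟩, ht⟩
      obtain ⟨y, hc, hsum⟩ := (heights hw u t).2 ht
      refine ⟨fun i => if h : p i then y ⟨i, h⟩ else y' ⟨i, h⟩, ?_, ?_⟩
      · rw [hL]
        have e1 : (fun i : {i // ¬ p i} => if h : p i.1 then y ⟨i.1, h⟩ else y' ⟨i.1, h⟩) = y' := by
          funext i
          rw [dif_neg i.2]
        have e2 : ∑ i : {i // p i}, w i * (if h : p i.1 then y ⟨i.1, h⟩ else y' ⟨i.1, h⟩) = t := by
          rw [← hsum]
          refine Finset.sum_congr rfl fun i _ => ?_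
          rw [dif_pos i.2]
        rw [e1, e2]
        exact hy'
      · intro i
        by_cases h : p i
        · simp only [Equiv.piEquivPiSubtypeProd_symm_apply, dif_pos h]
          exact hc ⟨i, h⟩
        · simp only [Equiv.piEquivPiSubtypeProd_symm_apply, dif_neg h]
          exact hc' ⟨i, h⟩
  by_cases h : (Ks W s ∩ Jset (ms w 1 u) (ms w 2 u) (ms w 0 u)).Nonempty
  · rw [if_pos (hiff.2 h), if_pos h]
  · rw [if_neg (fun h' => h (hiff.1 h')), if_neg h]

end

end Pool.Agent.GRD
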