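import Pool.Agent.GRD.Semi

/-!
# The six arrangements of three colour classes
-/

set_option autoImplicit false

open scoped BigOperators Classical

namespace Pool.Agent.GRD

noncomputable section

/-- heights reached by a class with positive mass `x`, negative mass `y` and free mass `z` -/
def Jset (x y z : ℝ) : Set ℝ := if z = 0 then {x - y} else Set.Ioo (x - y - z) (x - y + z)

theorem Jset_zero (x y : ℝ) : Jset x y 0 = {x - y} := by simp [Jset]

theorem Jset_pos {x y z : ℝ} (h : 0 < z) : Jset x y z = Set.Ioo (x - y - z) (x - y + z) := by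
  simp [Jset, h.ne']

/-- sum over the six orders -/
def six (f : ℝ → ℝ → ℝ → ℕ) (a b c : ℝ) : ℕ :=
  f a b c + f b a c + f b c a + f c b a + f c a b + f a c b

theorem six_rot (f : ℝ → ℝ → ℝ → ℕ) (a b c : ℝ) : six f b c a = six f a b c := by
  unfold six; omega

theorem six_swap (f : ℝ → ℝ → ℝ → ℕ) (a b c : ℝ) : six f b a c = six f a b c := by
  unfold six; omega

/-- indicator of meeting -/
def hit (K I : Set ℝ) : ℕ := if (K ∩ I).Nonempty then 1 else 0

theorem hit_of_mem {K I : Set ℝ} {t : ℝ} (h : t ∈ K) (h' : t ∈ I) : hit K I = 1 := by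
  unfold hit
  rw [if_pos ⟨t, h, h'⟩]

theorem hit_le (K I : Set ℝ) : hit K I ≤ 1 := by unfold hit; split_ifs <;> simp

theorem hit_zero {K I : Set ℝ} (h : ¬ (K ∩ I).Nonempty) : hit K I = 0 := by
  unfold hit; rw [if_neg h]

theorem Phi_eq {ι : Type} [Fintype ι] (W : Submodule ℝ ((ι → ℝ) × ℝ)) (I : Set ℝ) :
    Phi W I = ∑ s : ι → ZMod 3, hit (Ks W s) I := by
  unfold Phi hit
  rw [Finset.card_filter]

/-- the pointwise inequality in the majority case -/
theorem pointwise {K : Set ℝ} (hconv : ∀ t ∈ K, ∀ t' ∈ K, ∀ r, t ≤ r → r ≤ t' → r ∈ K)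
    (hopen : ∀ t ∈ K, ∀ t' ∈ K, t ≠ t' → ∃ δ : ℝ, 0 < δ ∧ ∀ r, |r - t| < δ → r ∈ K)
    {a b c M : ℝ} (hb : 0 ≤ b) (hc : 0 ≤ c) (hM : 0 < M) (ha : a = M + b + c) :
    2 * (hit K {M} + hit K {-M} + hit K (Set.Ioo (-M) M)) ≤
      six (fun x y z => hit K (Jset x y z)) a b c := by
  have hapos : 0 < a := by linarith
  have hX1 : Jset b c a = Set.Ioo (-M - 2 * c) (M + 2 * b) := by
    rw [Jset_pos hapos]; congr 1 <;> linarith
  have hX2 : Jset c b a = Set.Ioo (-M - 2 * b) (M + 2 * c) := by
    rw [Jset_pos hapos]; congr 1 <;> linarith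
  -- right pieces
  have hmid : ∀ t ∈ K, -M < t → t < M → hit K (Jset b c a) = 1 ∧ hit K (Jset c b a) = 1 := by
    intro t ht h1 h2
    constructor
    · exact hit_of_mem ht (by rw [hX1]; constructor <;> linarith)
    · exact hit_of_mem ht (by rw [hX2]; constructor <;> linarith)
  have hY : ∀ x z : ℝ, 0 ≤ z → a - x - z = M → M ∈ K → (∃ t ∈ K, t ≠ M) →
      hit K (Jset a x z) = 1 := by
    intro x z hz hx hMK ht
    obtain ⟨t, ht, hne⟩ := ht
    obtain ⟨δ, hδ, hball⟩ := hopen M hMK t ht hne.symm
    rcases hz.lt_or_eq with hz' | hz'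
    · set r := M + min (δ / 2) z with hr
      have h1 : 0 < min (δ / 2) z := lt_min (by linarith) hz'
      have h2 : min (δ / 2) z ≤ δ / 2 := min_le_left _ _
      have h3 : min (δ / 2) z ≤ z := min_le_right _ _
      refine hit_of_mem (t := r) (hball r ?_) ?_
      · rw [hr, add_sub_cancel_left, abs_of_pos h1]; linarith
      · rw [Jset_pos hz']
        constructor
        · linarith
        · linarith
    · subst hz'
      refine hit_of_mem hMK ?_
      rw [Jset_zero, Set.mem_singleton_iff]; linarith
  have hY' : ∀ x z : ℝ, 0 ≤ z → a - x - z = M → -M ∈ K → (∃ t ∈ K, t ≠ -M) →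
      hit K (Jset x a z) = 1 := by
    intro x z hz hx hMK ht
    obtain ⟨t, ht, hne⟩ := ht
    obtain ⟨δ, hδ, hball⟩ := hopen (-M) hMK t ht hne.symm
    rcases hz.lt_or_eq with hz' | hz'
    · set r := -M - min (δ / 2) z with hr
      have h1 : 0 < min (δ / 2) z := lt_min (by linarith) hz'
      have h2 : min (δ / 2) z ≤ δ / 2 := min_le_left _ _
      have h3 : min (δ / 2) z ≤ z := min_le_right _ _
      refine hit_of_mem (t := r) (hball r ?_) ?_
      · have : r - -M = -(min (δ / 2) z) := by rw [hr]; ring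
        rw [this, abs_neg, abs_of_pos h1]; linarith
      · rw [Jset_pos hz']
        constructor
        · linarith
        · linarith
    · subst hz'
      refine hit_of_mem hMK ?_
      rw [Jset_zero, Set.mem_singleton_iff]; linarith
  have l1 := hit_le K {M}
  have l2 := hit_le K {-M}
  have l3 := hit_le K (Set.Ioo (-M) M)
  by_cases hmeet : (K ∩ Set.Ioo (-M) M).Nonempty
  · obtain ⟨t, ht, ht1, ht2⟩ := hmeet
    obtain ⟨e1, e2⟩ := hmid t ht ht1 ht2
    have e3 : hit K {M} = 1 → hit K (Jset a b c) = 1 ∧ hit K (Jset a c b) = 1 := by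
      intro h
      have hMK : M ∈ K := by
        by_contra hcon
        have : hit K {M} = 0 := hit_zero (by
          rintro ⟨r, hr, hr'⟩
          rw [Set.mem_singleton_iff] at hr'
          exact hcon (hr' ▸ hr))
        omega
      exact ⟨hY b c hc (by linarith) hMK ⟨t, ht, by linarith⟩,
        hY c b hb (by linarith) hMK ⟨t, ht, by linarith⟩⟩
    have e4 : hit K {-M} = 1 → hit K (Jset b a c) = 1 ∧ hit K (Jset c a b) = 1 := by
      intro h
      have hMK : -M ∈ K := by
        by_contra hcon
        have : hit K {-M} = 0 := hit_zero (by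
          rintro ⟨r, hr, hr'⟩
          rw [Set.mem_singleton_iff] at hr'
          exact hcon (hr' ▸ hr))
        omega
      exact ⟨hY' b c hc (by linarith) hMK ⟨t, ht, by linarith⟩,
        hY' c b hb (by linarith) hMK ⟨t, ht, by linarith⟩⟩
    have d1 : hit K {M} = 0 ∨ hit K {M} = 1 := by omega
    have d2 : hit K {-M} = 0 ∨ hit K {-M} = 1 := by omega
    unfold six
    rcases d1 with d1 | d1 <;> rcases d2 with d2 | d2
    · simp only; omega
    · have := e4 d2; simp only; omega
    · have := e3 d1; simp only; omega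
    · have := e4 d2; have := e3 d1; simp only; omega
  · have h0 : hit K (Set.Ioo (-M) M) = 0 := hit_zero hmeet
    have hnot : ¬ (M ∈ K ∧ -M ∈ K) := by
      rintro ⟨h1, h2⟩
      exact hmeet ⟨0, hconv (-M) h2 M h1 0 (by linarith) hM.le, by linarith, hM⟩
    by_cases hMK : M ∈ K
    · have hMK' : -M ∉ K := fun h => hnot ⟨hMK, h⟩
      have g2 : hit K {-M} = 0 := hit_zero (by
        rintro ⟨r, hr, hr'⟩
        rw [Set.mem_singleton_iff] at hr'
        exact hMK' (hr' ▸ hr))
      have p1 : 1 ≤ hit K (Jset b c a) + hit K (Jset a c b) := by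
        rcases hb.lt_or_eq with hb' | hb'
        · have := hit_of_mem (I := Jset b c a) hMK (by rw [hX1]; constructor <;> linarith)
          omega
        · have := hit_of_mem (I := Jset a c b) hMK (by
            rw [← hb', Jset_zero, Set.mem_singleton_iff]; linarith)
          omega
      have p2 : 1 ≤ hit K (Jset c b a) + hit K (Jset a b c) := by
        rcases hc.lt_or_eq with hc' | hc'
        · have := hit_of_mem (I := Jset c b a) hMK (by rw [hX2]; constructor <;> linarith)
          omega
        · have := hit_of_mem (I := Jset a b c) hMK (by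
            rw [← hc', Jset_zero, Set.mem_singleton_iff]; linarith)
          omega
      unfold six
      simp only
      omega
    · have g1 : hit K {M} = 0 := hit_zero (by
        rintro ⟨r, hr, hr'⟩
        rw [Set.mem_singleton_iff] at hr'
        exact hMK (hr' ▸ hr))
      by_cases hMK' : -M ∈ K
      · have p1 : 1 ≤ hit K (Jset b c a) + hit K (Jset b a c) := by
          rcases hc.lt_or_eq with hc' | hc'
          · have := hit_of_mem (I := Jset b c a) hMK' (by rw [hX1]; constructor <;> linarith)
            omega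
          · have := hit_of_mem (I := Jset b a c) hMK' (by
              rw [← hc', Jset_zero, Set.mem_singleton_iff]; linarith)
            omega
        have p2 : 1 ≤ hit K (Jset c b a) + hit K (Jset c a b) := by
          rcases hb.lt_or_eq with hb' | hb'
          · have := hit_of_mem (I := Jset c b a) hMK' (by rw [hX2]; constructor <;> linarith)
            omega
          · have := hit_of_mem (I := Jset c a b) hMK' (by
              rw [← hb', Jset_zero, Set.mem_singleton_iff]; linarith)
            omega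
        unfold six
        simp only
        omega
      · have g2 : hit K {-M} = 0 := hit_zero (by
          rintro ⟨r, hr, hr'⟩
          rw [Set.mem_singleton_iff] at hr'
          exact hMK' (hr' ▸ hr))
        omega

variable {ι : Type} [Fintype ι]

/-- number of faces of the system with one vote of weight `M` -/
def GW (W : Submodule ℝ ((ι → ℝ) × ℝ)) (M : ℝ) : ℕ :=
  Phi W {M} + Phi W {-M} + Phi W (Set.Ioo (-M) M)

theorem majority (W : Submodule ℝ ((ι → ℝ) × ℝ)) {a b c M : ℝ} (hb : 0 ≤ b) (hc : 0 ≤ c)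
    (hM : 0 < M) (ha : a = M + b + c) :
    2 * GW W M ≤ six (fun x y z => Phi W (Jset x y z)) a b c := by
  have h1 : 2 * GW W M = ∑ s : ι → ZMod 3,
      2 * (hit (Ks W s) {M} + hit (Ks W s) {-M} + hit (Ks W s) (Set.Ioo (-M) M)) := by
    unfold GW
    rw [Phi_eq, Phi_eq, Phi_eq, ← Finset.sum_add_distrib, ← Finset.sum_add_distrib,
      Finset.mul_sum]
  have h2 : six (fun x y z => Phi W (Jset x y z)) a b c =
      ∑ s : ι → ZMod 3, six (fun x y z => hit (Ks W s) (Jset x y z)) a b c := by
    unfold six
    simp only [Phi_eq]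
    rw [← Finset.sum_add_distrib, ← Finset.sum_add_distrib, ← Finset.sum_add_distrib,
      ← Finset.sum_add_distrib, ← Finset.sum_add_distrib]
  rw [h1, h2]
  refine Finset.sum_le_sum fun s _ => ?_
  exact pointwise (fun t ht t' ht' r h1 h2 => Ks_between W s ht ht' h1 h2)
    (fun t ht t' ht' hne => Ks_open W s ht ht' hne) hb hc hM ha

theorem tri (W : Submodule ℝ ((ι → ℝ) × ℝ)) (hW : ∃ q ∈ W, q.2 ≠ 0) {x y z : ℝ}
    (hz : 0 ≤ z) (h : |x - y| ≤ z) : Phi W {0} ≤ Phi W (Jset x y z) := by
  rcases hz.lt_or_eq with hz' | hz'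
  · rw [Jset_pos hz']
    rcases h.lt_or_eq with h' | h'
    · rw [abs_lt] at h'
      apply Phi_mono
      rintro t rfl
      constructor <;> linarith
    · rcases abs_choice (x - y) with h2 | h2
      · have e : x - y = z := by rw [← h2, h']
        rw [e, sub_self]
        exact semi W hW (by linarith)
      · have e : x - y = -z := by linarith
        have e1 : x - y - z = -(2 * z) := by linarith
        have e2 : x - y + z = 0 := by linarith
        rw [e1, e2]
        exact semi' W hW (by linarith)
  · rw [← hz'] at h ⊢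
    have : x - y = 0 := abs_eq_zero.1 (le_antisymm h (abs_nonneg _))
    rw [Jset_zero, this]

theorem star_max (W : Submodule ℝ ((ι → ℝ) × ℝ)) (hW : ∃ q ∈ W, q.2 ≠ 0) (τ : ℕ)
    (h0 : τ ≤ Phi W {0}) (hG : ∀ M : ℝ, 0 < M → 3 * τ ≤ GW W M) {a b c : ℝ} (hb : 0 ≤ b)
    (hc : 0 ≤ c) (hba : b ≤ a) (hca : c ≤ a) :
    6 * τ ≤ six (fun x y z => Phi W (Jset x y z)) a b c := by
  by_cases h : a ≤ b + c
  · have t1 := tri W hW (x := a) (y := b) hc (abs_le.2 ⟨by linarith, by linarith⟩)
    have t2 := tri W hW (x := b) (y := a) hc (abs_le.2 ⟨by linarith, by linarith⟩)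
    have t3 := tri W hW (x := b) (y := c) (hb.trans hba) (abs_le.2 ⟨by linarith, by linarith⟩)
    have t4 := tri W hW (x := c) (y := b) (hb.trans hba) (abs_le.2 ⟨by linarith, by linarith⟩)
    have t5 := tri W hW (x := c) (y := a) hb (abs_le.2 ⟨by linarith, by linarith⟩)
    have t6 := tri W hW (x := a) (y := c) hb (abs_le.2 ⟨by linarith, by linarith⟩)
    unfold six
    simp only
    omega
  · rw [not_le] at h
    have h1 := majority W (a := a) (M := a - b - c) hb hc (by linarith) (by ring)
    have h2 := hG (a - b - c) (by linarith)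
    omega

theorem star (W : Submodule ℝ ((ι → ℝ) × ℝ)) (hW : ∃ q ∈ W, q.2 ≠ 0) (τ : ℕ)
    (h0 : τ ≤ Phi W {0}) (hG : ∀ M : ℝ, 0 < M → 3 * τ ≤ GW W M) {a b c : ℝ} (ha : 0 ≤ a)
    (hb : 0 ≤ b) (hc : 0 ≤ c) :
    6 * τ ≤ six (fun x y z => Phi W (Jset x y z)) a b c := by
  by_cases h1 : b ≤ a ∧ c ≤ a
  · exact star_max W hW τ h0 hG hb hc h1.1 h1.2
  by_cases h2 : a ≤ b ∧ c ≤ b
  · rw [← six_swap]
    exact star_max W hW τ h0 hG ha hc h2.1 h2.2
  have h3 : a ≤ c ∧ b ≤ c := by
    by_contra h
    simp only [not_and_or, not_le] at h h1 h2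
    rcases h with h | h <;> rcases h1 with h1 | h1 <;> rcases h2 with h2 | h2 <;> linarith
  rw [← six_rot, ← six_rot]
  exact star_max W hW τ h0 hG ha hb h3.1 h3.2

/-- the weak form without perturbation -/
theorem star_co_max (W : Submodule ℝ ((ι → ℝ) × ℝ)) {a b c : ℝ} (hb : 0 ≤ b)
    (hc : 0 ≤ c) (hba : b ≤ a) (hca : c ≤ a) :
    2 * Phi W {0} ≤ six (fun x y z => Phi W (Jset x y z)) a b c := by
  have key : ∀ x y z : ℝ, (0 : ℝ) ∈ Jset x y z → Phi W {0} ≤ Phi W (Jset x y z) := by
    intro x y z h
    apply Phi_mono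
    rintro t rfl
    exact h
  rcases (hb.trans hba).lt_or_eq with hapos | h0
  · rcases lt_or_ge (|b - c|) a with h | h
    · rw [abs_lt] at h
      have t1 := key b c a (by rw [Jset_pos hapos]; constructor <;> linarith)
      have t2 := key c b a (by rw [Jset_pos hapos]; constructor <;> linarith)
      unfold six
      simp only
      omega
    · rcases abs_choice (b - c) with h2 | h2
      · have hc0 : c = 0 := by linarith
        have hba' : b = a := by linarith
        subst hc0
        subst hba'
        have t1 := key b b 0 (by rw [Jset_zero, Set.mem_singleton_iff]; ring)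
        unfold six
        simp only
        omega
      · have hb0 : b = 0 := by linarith
        have hca' : c = a := by linarith
        subst hb0
        subst hca'
        have t1 := key c c 0 (by rw [Jset_zero, Set.mem_singleton_iff]; ring)
        unfold six
        simp only
        omega
  · have hb0 : b = 0 := by linarith
    have hc0 : c = 0 := by linarith
    subst hb0
    subst hc0
    rw [← h0]
    have t1 := key 0 0 0 (by rw [Jset_zero, Set.mem_singleton_iff]; ring)
    unfold six
    simp only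
    omega

theorem star_co (W : Submodule ℝ ((ι → ℝ) × ℝ)) {a b c : ℝ} (ha : 0 ≤ a) (hb : 0 ≤ b)
    (hc : 0 ≤ c) : 2 * Phi W {0} ≤ six (fun x y z => Phi W (Jset x y z)) a b c := by
  by_cases h1 : b ≤ a ∧ c ≤ a
  · exact star_co_max W hb hc h1.1 h1.2
  by_cases h2 : a ≤ b ∧ c ≤ b
  · rw [← six_swap]
    exact star_co_max W ha hc h2.1 h2.2
  have h3 : a ≤ c ∧ b ≤ c := by
    by_contra h
    simp only [not_and_or, not_le] at h h1 h2
    rcases h with h | h <;> rcases h1 with h1 | h1 <;> rcases h2 with h2 | h2 <;> linarith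
  rw [← six_rot, ← six_rot]
  exact star_co_max W ha hb h3.1 h3.2

end

end Pool.Agent.GRD
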