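import Pool.Agent.GRD.Split

/-!
# Systems of classes: the subspaces `LL c w Λ`
-/

set_option autoImplicit false

open scoped BigOperators Classical

namespace Pool.Agent.GRD

noncomputable section

variable {ι : Type} [Fintype ι] {p : ℕ}

/-- block sums -/
def SS (c : ι → Fin p) (w : ι → ℝ) : (ι → ℝ) →ₗ[ℝ] (Fin p → ℝ) where
  toFun y := fun j => ∑ i, if c i = j then w i * y i else 0
  map_add' x y := by
    funext j
    simp only [Pi.add_apply]
    rw [← Finset.sum_add_distrib]
    refine Finset.sum_congr rfl fun i _ => ?_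
    split_ifs <;> ring
  map_smul' r x := by
    funext j
    simp only [Pi.smul_apply, smul_eq_mul, RingHom.id_apply]
    rw [Finset.mul_sum]
    refine Finset.sum_congr rfl fun i _ => ?_
    split_ifs <;> ring

theorem SS_apply (c : ι → Fin p) (w : ι → ℝ) (y : ι → ℝ) (j : Fin p) :
    SS c w y j = ∑ i, if c i = j then w i * y i else 0 := rfl

/-- the pull-back of `Λ` under the block sums -/
def LL (c : ι → Fin p) (w : ι → ℝ) (Λ : Submodule ℝ (Fin p → ℝ)) : Submodule ℝ (ι → ℝ) :=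
  Λ.comap (SS c w)

theorem mem_LL (c : ι → Fin p) (w : ι → ℝ) (Λ : Submodule ℝ (Fin p → ℝ)) (y : ι → ℝ) :
    y ∈ LL c w Λ ↔ SS c w y ∈ Λ := Iff.rfl

/-- the space of pairs (rest of the votes, sum of the class `j`) -/
def WW (c : ι → Fin p) (w : ι → ℝ) (Λ : Submodule ℝ (Fin p → ℝ)) (j : Fin p) :
    Submodule ℝ (({i // ¬ c i = j} → ℝ) × ℝ) :=
  Λ.comap ((SS (fun i : {i // ¬ c i = j} => c i.1) (fun i => w i.1)).comp
      (LinearMap.fst ℝ _ _) +
    (LinearMap.toSpanSingleton ℝ (Fin p → ℝ) (Pi.single j 1)).comp (LinearMap.snd ℝ _ _))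

theorem mem_WW (c : ι → Fin p) (w : ι → ℝ) (Λ : Submodule ℝ (Fin p → ℝ)) (j : Fin p)
    (y : {i // ¬ c i = j} → ℝ) (t : ℝ) :
    (y, t) ∈ WW c w Λ j ↔
      SS (fun i : {i // ¬ c i = j} => c i.1) (fun i => w i.1) y + t • Pi.single j 1 ∈ Λ := Iff.rfl

theorem SS_split (c : ι → Fin p) (w : ι → ℝ) (j : Fin p) (y : ι → ℝ) :
    SS c w y = SS (fun i : {i // ¬ c i = j} => c i.1) (fun i => w i.1) (fun i => y i.1) +
      (∑ i : {i // c i = j}, w i.1 * y i.1) • Pi.single j 1 := by
  funext l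
  rw [Pi.add_apply, SS_apply, SS_apply, Pi.smul_apply, smul_eq_mul]
  rw [← Fintype.sum_subtype_add_sum_subtype (fun i => c i = j)
    (fun i => if c i = l then w i * y i else 0), add_comm]
  congr 1
  rw [Finset.sum_mul]
  refine Finset.sum_congr rfl fun i _ => ?_
  rw [i.2]
  by_cases h : j = l
  · subst h; simp
  · rw [if_neg h, Pi.single_eq_of_ne (fun h' => h h'.symm), mul_zero]

theorem mem_LL_iff (c : ι → Fin p) (w : ι → ℝ) (Λ : Submodule ℝ (Fin p → ℝ)) (j : Fin p)
    (y : ι → ℝ) : y ∈ LL c w Λ ↔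
      ((fun i : {i // ¬ c i = j} => y i.1), ∑ i : {i // c i = j}, w i.1 * y i.1) ∈
        WW c w Λ j := by
  rw [mem_LL, mem_WW, ← SS_split]

/-- the system without the class `j` -/
abbrev L0 (c : ι → Fin p) (w : ι → ℝ) (Λ : Submodule ℝ (Fin p → ℝ)) (j : Fin p) :
    Submodule ℝ ({i // ¬ c i = j} → ℝ) :=
  LL (fun i : {i // ¬ c i = j} => c i.1) (fun i => w i.1) Λ

theorem mem_L0 (c : ι → Fin p) (w : ι → ℝ) (Λ : Submodule ℝ (Fin p → ℝ)) (j : Fin p)
    (y : {i // ¬ c i = j} → ℝ) : y ∈ L0 c w Λ j ↔ (y, (0 : ℝ)) ∈ WW c w Λ j := by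
  rw [mem_WW, zero_smul, add_zero]
  exact Iff.rfl

theorem NL_L0 (c : ι → Fin p) (w : ι → ℝ) (Λ : Submodule ℝ (Fin p → ℝ)) (j : Fin p) :
    NL (L0 c w Λ j) = Phi (WW c w Λ j) {0} := by
  unfold NL Phi
  congr 1
  ext s
  simp only [Finset.mem_filter, Finset.mem_univ, true_and]
  constructor
  · rintro ⟨y, hy, hc⟩
    exact ⟨0, ⟨y, (mem_L0 c w Λ j y).1 hy, hc⟩, rfl⟩
  · rintro ⟨t, ⟨y, hy, hc⟩, ht⟩
    rw [Set.mem_singleton_iff] at ht
    subst ht
    exact ⟨y, (mem_L0 c w Λ j y).2 hy, hc⟩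

/-- the system with the class `j` replaced by one vote of weight `M` -/
abbrev L1 (c : ι → Fin p) (w : ι → ℝ) (Λ : Submodule ℝ (Fin p → ℝ)) (j : Fin p) (M : ℝ) :
    Submodule ℝ (Option {i // ¬ c i = j} → ℝ) :=
  LL (fun i : Option {i // ¬ c i = j} => i.elim j fun i => c i.1)
    (fun i => i.elim M fun i => w i.1) Λ

theorem mem_L1 (c : ι → Fin p) (w : ι → ℝ) (Λ : Submodule ℝ (Fin p → ℝ)) (j : Fin p) (M : ℝ)
    (y : Option {i // ¬ c i = j} → ℝ) :
    y ∈ L1 c w Λ j M ↔ ((fun i => y (some i)), M * y none) ∈ WW c w Λ j := by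
  rw [mem_LL, mem_WW]
  have : SS (fun i : Option {i // ¬ c i = j} => i.elim j fun i => c i.1)
      (fun i => i.elim M fun i => w i.1) y =
      SS (fun i : {i // ¬ c i = j} => c i.1) (fun i => w i.1) (fun i => y (some i)) +
        (M * y none) • Pi.single j 1 := by
    funext l
    rw [Pi.add_apply, SS_apply, SS_apply, Pi.smul_apply, smul_eq_mul, Fintype.sum_option,
      add_comm]
    congr 1
    by_cases h : j = l
    · subst h; simp
    · simp only [Option.elim_none]
      rw [if_neg h, Pi.single_eq_of_ne (fun h' => h h'.symm), mul_zero]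
  rw [this]

theorem sum_re {α β : Type} {iα : Fintype α} {iβ : Fintype β} (e : α ≃ β) (f : β → ℕ) :
    @Finset.sum β ℕ _ (@Finset.univ β iβ) f =
      @Finset.sum α ℕ _ (@Finset.univ α iα) (fun a => f (e a)) :=
  (Equiv.sum_comp e f).symm

theorem NL_L1 (c : ι → Fin p) (w : ι → ℝ) (Λ : Submodule ℝ (Fin p → ℝ)) (j : Fin p) {M : ℝ}
    (hM : 0 < M) : NL (L1 c w Λ j M) = GW (WW c w Λ j) M := by
  unfold NL GW Phi
  simp only [Finset.card_filter]
  rw [sum_re (iα := inferInstance) (Equiv.piOptionEquivProd (β := fun _ => ZMod 3)).symm,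
    Fintype.sum_prod_type]
  have h3 : ∀ f : ZMod 3 → ℕ, ∑ z, f z = f 1 + f 2 + f 0 := by
    intro f
    have := Fin.sum_univ_three (f := (f : Fin 3 → ℕ))
    have e : ∑ z : ZMod 3, f z = f 0 + f 1 + f 2 := this
    rw [e]; ring
  rw [h3]
  have key : ∀ (z : ZMod 3) (I : Set ℝ), (∀ r : ℝ, ((z = 0 → |r| < 1) ∧ (z ≠ 0 → r = sg z)) ↔
      M * r ∈ I) → ∀ s : {i // ¬ c i = j} → ZMod 3,
      (if ∃ y ∈ L1 c w Λ j M,
        Cell ((Equiv.piOptionEquivProd (β := fun _ => ZMod 3)).symm (z, s)) y then 1 else 0) =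
      (if (Ks (WW c w Λ j) s ∩ I).Nonempty then 1 else 0 : ℕ) := by
    intro z I hI s
    have hiff : (∃ y ∈ L1 c w Λ j M,
        Cell ((Equiv.piOptionEquivProd (β := fun _ => ZMod 3)).symm (z, s)) y) ↔
        (Ks (WW c w Λ j) s ∩ I).Nonempty := by
      constructor
      · rintro ⟨y, hy, hc⟩
        rw [mem_L1] at hy
        exact ⟨_, ⟨_, hy, fun i => hc (some i)⟩, (hI _).1 (hc none)⟩
      · rintro ⟨t, ⟨y, hy, hc⟩, ht⟩
        have hMt : M * (t / M) = t := by field_simp
        refine ⟨fun i => i.elim (t / M) y, ?_, ?_⟩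
        · rw [mem_L1]
          simp only [Option.elim_some, Option.elim_none]
          rw [hMt]
          exact hy
        · intro i
          cases i with
          | none => exact (hI _).2 (hMt.symm ▸ ht)
          | some i => exact hc i
    by_cases h : (Ks (WW c w Λ j) s ∩ I).Nonempty
    · rw [if_pos (hiff.2 h), if_pos h]
    · rw [if_neg (fun h' => h (hiff.1 h')), if_neg h]
  have h01 : (0 : ZMod 3) ≠ 1 := by decide
  have h02 : (0 : ZMod 3) ≠ 2 := by decide
  congr 1
  · congr 1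
    · refine Finset.sum_congr (by ext; simp) fun s _ => key 1 {M} (fun r => ?_) s
      simp only [h01.symm, sg_one, false_implies, ne_eq, not_false_eq_true, true_implies,
        true_and, Set.mem_singleton_iff]
      constructor
      · rintro rfl; ring
      · intro h; apply mul_left_cancel₀ hM.ne'; linarith
    · refine Finset.sum_congr (by ext; simp) fun s _ => key 2 {-M} (fun r => ?_) s
      simp only [h02.symm, sg_two, false_implies, ne_eq, not_false_eq_true, true_implies,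
        true_and, Set.mem_singleton_iff]
      constructor
      · rintro rfl; ring
      · intro h; apply mul_left_cancel₀ hM.ne'; linarith
  · refine Finset.sum_congr (by ext; simp) fun s _ => key 0 (Set.Ioo (-M) M) (fun r => ?_) s
    simp only [true_implies, ne_eq, not_true_eq_false, false_implies, and_true, Set.mem_Ioo]
    rw [abs_lt]
    constructor
    · rintro ⟨h1, h2⟩
      constructor <;> nlinarith
    · rintro ⟨h1, h2⟩
      constructor
      · by_contra h; rw [not_lt] at h; nlinarith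
      · by_contra h; rw [not_lt] at h; nlinarith

end

end Pool.Agent.GRD
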